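import Mathlib

/-! Bohr sets in cyclic groups: definitions and the translation to the norm of the circle. -/

set_option autoImplicit false

namespace Pool.Agent.Q215.BT

/-- The Bohr set `B(Γ, ε) = {x ∈ ℤ/N : ‖γ x / N‖ ≤ ε for all γ ∈ Γ}`; the norm is the distance to the nearest
integer. -/
def bohr {N : ℕ} (Γ : Finset (ZMod N)) (ε : ℝ) : Set (ZMod N) :=
  {x | ∀ γ ∈ Γ, |((γ * x).val : ℝ) / (N : ℝ) - ((round (((γ * x).val : ℝ) / (N : ℝ)) : ℤ) : ℝ)| ≤ ε}

/-- The set `2A - 2A`. -/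
def twoAMinusTwoA {N : ℕ} (A : Finset (ZMod N)) : Set (ZMod N) :=
  {x | ∃ a₁ ∈ A, ∃ a₂ ∈ A, ∃ a₃ ∈ A, ∃ a₄ ∈ A, x = a₁ + a₂ - a₃ - a₄}

theorem mem_bohr {N : ℕ} [NeZero N] (Γ : Finset (ZMod N)) (ε : ℝ) (x : ZMod N) :
    x ∈ bohr Γ ε ↔ ∀ γ ∈ Γ, ‖ZMod.toAddCircle (γ * x)‖ ≤ ε := by
  unfold bohr
  rw [Set.mem_setOf_eq]
  refine forall₂_congr fun γ _ => ?_
  rw [ZMod.toAddCircle_apply, UnitAddCircle.norm_eq]

theorem two_mono {N : ℕ} {A B : Finset (ZMod N)} (h : B ⊆ A) : twoAMinusTwoA B ⊆ twoAMinusTwoA A := by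
  rintro x ⟨a, ha, b, hb, c, hc, d, hd, rfl⟩
  exact ⟨a, h ha, b, h hb, c, h hc, d, h hd, rfl⟩

/-- If `A` has more than half of the elements then `2A - 2A` is the whole group. -/
theorem two_univ {N : ℕ} [NeZero N] (A : Finset (ZMod N)) (h : N < 2 * A.card) (x : ZMod N) :
    x ∈ twoAMinusTwoA A := by
  classical
  have hne : A.Nonempty := by
    rw [← Finset.card_pos]; omega
  obtain ⟨a, ha⟩ := hne
  have hcard : (A.image fun y => x + y).card = A.card :=
    Finset.card_image_of_injective _ (add_right_injective x)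
  have hint : (A ∩ A.image fun y => x + y).Nonempty := by
    rw [← Finset.card_pos]
    have h1 := Finset.card_union_add_card_inter A (A.image fun y => x + y)
    have h2 : (A ∪ A.image fun y => x + y).card ≤ N := by
      have := Finset.card_le_univ (A ∪ A.image fun y => x + y)
      rwa [ZMod.card] at this
    omega
  obtain ⟨z, hz⟩ := hint
  rw [Finset.mem_inter, Finset.mem_image] at hz
  obtain ⟨hz1, y, hy, hz2⟩ := hz
  exact ⟨z, hz1, a, ha, y, hy, a, ha, by rw [← hz2]; ring⟩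

end Pool.Agent.Q215.BT
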