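import Pool.Agent.Q215.BT.Transfer

/-! From few exceptional sets in `ℤ/M` to all sets in `ℤ/N`: the number of exceptions is at most a power less than one
of the number of all sets. -/

set_option autoImplicit false

namespace Pool.Agent.Q215.BT

open Finset

/-- Comparison of binomial coefficients. -/
theorem choose_lower (n M s : ℕ) (hs : 1 ≤ s) (h2 : 2 * s ≤ n) (hnM : n ≤ M) (θ δ : ℝ) (hθ : 0 < θ) (hδ : 0 < δ)
    (h3 : 2 * θ * M ≤ n) (h4 : 1 / θ ≤ ((M : ℝ) / (2 * s)) ^ δ) :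
    ((M.choose s : ℕ) : ℝ) ^ (1 - δ) ≤ n.choose s := by
  have hspos : (0 : ℝ) < s := by exact_mod_cast hs
  have hM0 : 0 < M := by omega
  have hMpos : (0 : ℝ) < M := by exact_mod_cast hM0
  have hfac : (0 : ℝ) < (s.factorial : ℝ) := by exact_mod_cast Nat.factorial_pos s
  have hcM : (0 : ℝ) < ((M.choose s : ℕ) : ℝ) := by exact_mod_cast Nat.choose_pos (by omega)
  have e1 : ((n.descFactorial s : ℕ) : ℝ) = (s.factorial : ℝ) * (n.choose s : ℝ) := by
    exact_mod_cast Nat.descFactorial_eq_factorial_mul_choose n s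
  have e2 : ((M.descFactorial s : ℕ) : ℝ) = (s.factorial : ℝ) * (M.choose s : ℝ) := by
    exact_mod_cast Nat.descFactorial_eq_factorial_mul_choose M s
  have g1 : θ ^ s * (M.choose s : ℝ) ≤ (n.choose s : ℝ) := by
    have a1 : ((M.descFactorial s : ℕ) : ℝ) ≤ (M : ℝ) ^ s := by exact_mod_cast Nat.descFactorial_le_pow M s
    have a2 : (((n + 1 - s : ℕ) : ℝ)) ^ s ≤ ((n.descFactorial s : ℕ) : ℝ) := by
      exact_mod_cast Nat.pow_sub_le_descFactorial n s
    have a3 : θ * M ≤ ((n + 1 - s : ℕ) : ℝ) := by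
      have b1 : ((n + 1 - s : ℕ) : ℝ) = (n : ℝ) + 1 - s := by
        rw [Nat.cast_sub (by omega)]; push_cast; ring
      have b2 : (2 : ℝ) * s ≤ n := by exact_mod_cast h2
      rw [b1]
      linarith
    have a4 : (θ * M) ^ s ≤ ((n + 1 - s : ℕ) : ℝ) ^ s := pow_le_pow_left₀ (by positivity) a3 s
    have a5 : (s.factorial : ℝ) * (θ ^ s * (M.choose s : ℝ)) ≤ (s.factorial : ℝ) * (n.choose s : ℝ) := by
      calc (s.factorial : ℝ) * (θ ^ s * (M.choose s : ℝ)) = θ ^ s * ((s.factorial : ℝ) * (M.choose s : ℝ)) := by ring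
        _ ≤ θ ^ s * (M : ℝ) ^ s := by
          rw [← e2]
          exact mul_le_mul_of_nonneg_left a1 (by positivity)
        _ = (θ * M) ^ s := by rw [mul_pow]
        _ ≤ _ := a4.trans (a2.trans_eq e1)
    exact le_of_mul_le_mul_left a5 hfac
  have g2 : ((M : ℝ) / (2 * s)) ^ s ≤ (M.choose s : ℝ) := by
    have a2 : (((M + 1 - s : ℕ) : ℝ)) ^ s ≤ ((M.descFactorial s : ℕ) : ℝ) := by
      exact_mod_cast Nat.pow_sub_le_descFactorial M s
    have a3 : (M : ℝ) / 2 ≤ ((M + 1 - s : ℕ) : ℝ) := by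
      have b1 : ((M + 1 - s : ℕ) : ℝ) = (M : ℝ) + 1 - s := by
        rw [Nat.cast_sub (by omega)]; push_cast; ring
      have b2 : (2 : ℝ) * s ≤ M := by exact_mod_cast h2.trans hnM
      rw [b1]
      linarith
    have a4 : ((M : ℝ) / 2) ^ s ≤ ((M + 1 - s : ℕ) : ℝ) ^ s := pow_le_pow_left₀ (by positivity) a3 s
    have a5 : (s.factorial : ℝ) ≤ (s : ℝ) ^ s := by exact_mod_cast Nat.factorial_le_pow s
    have a6 : ((M : ℝ) / 2) ^ s ≤ (M.choose s : ℝ) * (s : ℝ) ^ s := by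
      calc ((M : ℝ) / 2) ^ s ≤ (s.factorial : ℝ) * (M.choose s : ℝ) := a4.trans (a2.trans_eq e2)
        _ ≤ (s : ℝ) ^ s * (M.choose s : ℝ) := mul_le_mul_of_nonneg_right a5 hcM.le
        _ = _ := by ring
    rw [show (M : ℝ) / (2 * s) = (M : ℝ) / 2 / s by field_simp, div_pow, div_le_iff₀ (by positivity)]
    exact a6
  have hq : (0 : ℝ) < (M : ℝ) / (2 * s) := by positivity
  have g3 : (1 / θ) ^ s ≤ ((M.choose s : ℕ) : ℝ) ^ δ := by
    calc (1 / θ) ^ s ≤ (((M : ℝ) / (2 * s)) ^ δ) ^ s := pow_le_pow_left₀ (by positivity) h4 s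
      _ = (((M : ℝ) / (2 * s)) ^ s) ^ δ := by
        rw [← Real.rpow_natCast, ← Real.rpow_natCast, ← Real.rpow_mul hq.le, ← Real.rpow_mul hq.le, mul_comm δ]
      _ ≤ _ := Real.rpow_le_rpow (by positivity) g2 hδ.le
  have hpow : (0 : ℝ) < ((M.choose s : ℕ) : ℝ) ^ δ := Real.rpow_pos_of_pos hcM _
  rw [Real.rpow_sub hcM, Real.rpow_one, div_le_iff₀ hpow]
  have g4 : (1 : ℝ) ≤ θ ^ s * ((M.choose s : ℕ) : ℝ) ^ δ := by
    calc (1 : ℝ) = θ ^ s * (1 / θ) ^ s := by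
          rw [← mul_pow, mul_one_div_cancel hθ.ne', one_pow]
      _ ≤ _ := mul_le_mul_of_nonneg_left g3 (by positivity)
  calc ((M.choose s : ℕ) : ℝ) = ((M.choose s : ℕ) : ℝ) * 1 := by ring
    _ ≤ ((M.choose s : ℕ) : ℝ) * (θ ^ s * ((M.choose s : ℕ) : ℝ) ^ δ) := mul_le_mul_of_nonneg_left g4 hcM.le
    _ = (θ ^ s * ((M.choose s : ℕ) : ℝ)) * ((M.choose s : ℕ) : ℝ) ^ δ := by ring
    _ ≤ _ := mul_le_mul_of_nonneg_right g1 hpow.le

/-- The conclusion of Q1 with `k` in place of `log (1/α)`. -/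
def BohrGood (C c : ℝ) (k M : ℕ) (B : Finset (ZMod M)) : Prop :=
  ∃ (Γ : Finset (ZMod M)) (ε : ℝ), 0 < ε ∧ (Γ.card : ℝ) ≤ C * k ∧ c / k ≤ ε ∧ bohr Γ ε ⊆ twoAMinusTwoA B

/-- For every `k = 2 ^ j` there are arbitrarily large moduli `M ∈ 𝓜` such that the number of the sets `B ⊆ ℤ/M` with
`s = ⌊M / 2 ^ k⌋ + 1` elements which do not have the property `G k M` is less than `(M choose s) ^ (1 - δ)`. -/
def FewBad (δ : ℝ) (𝓜 : Set ℕ) (G : (k M : ℕ) → Finset (ZMod M) → Prop) : Prop :=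
  ∀ j M₀ : ℕ, ∃ M ∈ 𝓜, M₀ < M ∧
    (({B : Finset (ZMod M) | B.card = M / 2 ^ 2 ^ j + 1 ∧ ¬ G (2 ^ j) M B}.ncard : ℕ) : ℝ) <
      ((M.choose (M / 2 ^ 2 ^ j + 1) : ℕ) : ℝ) ^ (1 - δ)

/-- The conclusion of Q1 for one set. -/
def Concl (C c : ℝ) {N : ℕ} (A : Finset (ZMod N)) : Prop :=
  ∃ (Γ : Finset (ZMod N)) (ε : ℝ), 0 < ε ∧ (Γ.card : ℝ) ≤ C * Real.log ((N : ℝ) / (A.card : ℝ)) ∧
    c / Real.log ((N : ℝ) / (A.card : ℝ)) ≤ ε ∧ bohr Γ ε ⊆ twoAMinusTwoA A

theorem log_ge {N : ℕ} (hN : 0 < N) (A : Finset (ZMod N)) (hAne : A.Nonempty)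
    (hα : (A.card : ℝ) / (N : ℝ) ≤ 1 / 2) : Real.log 2 ≤ Real.log ((N : ℝ) / (A.card : ℝ)) := by
  have hNpos : (0 : ℝ) < N := by exact_mod_cast hN
  have hApos : (0 : ℝ) < A.card := by exact_mod_cast hAne.card_pos
  have h2 : (2 : ℝ) ≤ (N : ℝ) / (A.card : ℝ) := by
    rw [div_le_iff₀ hNpos] at hα
    rw [le_div_iff₀ hApos]
    linarith
  exact Real.log_le_log (by norm_num) h2

/-- Few exceptions suffice. -/
theorem few_to_all (δ : ℝ) (hδ : 0 < δ) (hδ1 : δ ≤ 1) (C c : ℝ) (hC : 0 < C) (hc : 0 < c) (𝓜 : Set ℕ)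
    (h : FewBad δ 𝓜 (BohrGood C c))
    (N : ℕ) (hN : 0 < N) (A : Finset (ZMod N)) (hAne : A.Nonempty) (hα : (A.card : ℝ) / (N : ℝ) ≤ 1 / 2) :
    Concl (24 * C / δ + 2) (c * δ / 36) A := by
  classical
  have : NeZero N := ⟨hN.ne'⟩
  have hl2 := log_ge hN A hAne hα
  have hNpos : (0 : ℝ) < N := by exact_mod_cast hN
  have hApos : (0 : ℝ) < A.card := by exact_mod_cast hAne.card_pos
  have hAN : A.card ≤ N := by
    have := card_le_univ A
    rwa [ZMod.card] at this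
  have hlog := Real.log_two_gt_d9
  have hlog0 : 0 < Real.log 2 := by linarith
  obtain ⟨l, hl⟩ : ∃ l : ℝ, l = Real.log ((N : ℝ) / (A.card : ℝ)) := ⟨_, rfl⟩
  rw [← hl] at hl2
  have hl0 : 0 < l := by linarith
  have h32 : Real.log 32 = 5 * Real.log 2 := by
    rw [show (32 : ℝ) = 2 ^ 5 by norm_num, Real.log_pow]; norm_num
  -- the scale
  have hex : ∃ j : ℕ, Real.log 32 + l ≤ δ * ((2 : ℝ) ^ j - 2) * Real.log 2 := by
    obtain ⟨n, hn⟩ := pow_unbounded_of_one_lt ((Real.log 32 + l) / (δ * Real.log 2) + 2) (one_lt_two)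
    refine ⟨n, ?_⟩
    have h1 : (Real.log 32 + l) / (δ * Real.log 2) < (2 : ℝ) ^ n - 2 := by linarith
    rw [div_lt_iff₀ (by positivity)] at h1
    nlinarith
  obtain ⟨j, hj1, hj2⟩ : ∃ j : ℕ, Real.log 32 + l ≤ δ * ((2 : ℝ) ^ j - 2) * Real.log 2 ∧
      (2 : ℝ) ^ j ≤ 24 * l / δ := by
    refine ⟨Nat.find hex, Nat.find_spec hex, ?_⟩
    rcases Nat.eq_zero_or_pos (Nat.find hex) with h0 | h0
    · exfalso
      have h1 := Nat.find_spec hex
      rw [h0, pow_zero] at h1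
      have h2 : 0 < δ * Real.log 2 := by positivity
      nlinarith
    · obtain ⟨i, hi⟩ : ∃ i, Nat.find hex = i + 1 := ⟨Nat.find hex - 1, by omega⟩
      have h1 := Nat.find_min hex (m := i) (by omega)
      rw [hi]
      push Not at h1
      rw [h32] at h1
      have h7 : (2 : ℝ) ^ (i + 1) = 2 * 2 ^ i := by ring
      rw [h7, le_div_iff₀ hδ]
      -- `δ 2^i log 2 < 6 l + 2 δ log 2 ≤ 8 l`
      have h8 : δ * 2 ^ i * Real.log 2 < 6 * l + 2 * δ * Real.log 2 := by nlinarith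
      have h9 : 2 * δ * Real.log 2 ≤ 2 * l := by nlinarith
      have h10 : δ * (2 : ℝ) ^ i * Real.log 2 < 8 * l := by linarith
      have h11 : 0 < δ * (2 : ℝ) ^ i := by positivity
      nlinarith
  obtain ⟨k, hk⟩ : ∃ k : ℕ, k = 2 ^ j := ⟨_, rfl⟩
  have hkR : (k : ℝ) = (2 : ℝ) ^ j := by rw [hk]; push_cast; ring
  rw [← hkR] at hj1 hj2
  have hk2 : 2 ≤ k := by
    by_contra hcon
    push Not at hcon
    have h1 : (k : ℝ) ≤ 1 := by exact_mod_cast (by omega : k ≤ 1)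
    have h2 : 0 < δ * Real.log 2 := by positivity
    rw [h32] at hj1
    nlinarith
  obtain ⟨q, hq⟩ : ∃ q : ℕ, q = 2 ^ k := ⟨_, rfl⟩
  have hq0 : 0 < q := by rw [hq]; positivity
  have hqpos : (0 : ℝ) < q := by exact_mod_cast hq0
  -- `(q / 4) ^ δ ≥ 32 N / |A|`
  obtain ⟨θ, hθ⟩ : ∃ θ : ℝ, θ = (A.card : ℝ) / (32 * N) := ⟨_, rfl⟩
  have hθ0 : 0 < θ := by rw [hθ]; positivity
  have hθ1 : 1 / θ = 32 * (N / A.card) := by rw [hθ]; field_simp
  have hlogθ : Real.log (1 / θ) = Real.log 32 + l := by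
    rw [hθ1, Real.log_mul (by norm_num) (by positivity), hl]
  have hlogq : Real.log ((q : ℝ) / 4) = ((k : ℝ) - 2) * Real.log 2 := by
    rw [hq, Real.log_div (by positivity) (by norm_num)]
    push_cast
    rw [Real.log_pow, show (4 : ℝ) = 2 ^ 2 by norm_num, Real.log_pow]
    push_cast
    ring
  have hqθ : 1 / θ ≤ ((q : ℝ) / 4) ^ δ := by
    rw [← Real.log_le_log_iff (by positivity) (by positivity), Real.log_rpow (by positivity), hlogθ, hlogq]
    linarith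
  have hq4 : (1 : ℝ) ≤ (q : ℝ) / 4 := by
    rw [hq, le_div_iff₀ (by norm_num)]
    have : 2 ^ 2 ≤ 2 ^ k := Nat.pow_le_pow_right (by norm_num) hk2
    have h1 : (4 : ℝ) ≤ ((2 ^ k : ℕ) : ℝ) := by exact_mod_cast this
    linarith
  have hqθ' : 1 / θ ≤ (q : ℝ) / 4 := by
    refine hqθ.trans ?_
    calc ((q : ℝ) / 4) ^ δ ≤ ((q : ℝ) / 4) ^ (1 : ℝ) := Real.rpow_le_rpow_of_exponent_le hq4 hδ1
      _ = _ := Real.rpow_one _
  have hqA : 128 * N ≤ q * A.card := by
    rw [hθ1] at hqθ'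
    rw [le_div_iff₀ (by norm_num), ← mul_div_assoc, div_mul_eq_mul_div, div_le_iff₀ hApos] at hqθ'
    have : (128 : ℝ) * N ≤ q * A.card := by linarith
    exact_mod_cast this
  obtain ⟨M, -, hM, hbad⟩ := h j (16 * N + q)
  rw [← hk, ← hq] at hbad
  have : NeZero M := ⟨by omega⟩
  have hMpos : (0 : ℝ) < M := by exact_mod_cast NeZero.pos M
  have hcard := card_lift (N := N) (M := M) (by omega) A
  obtain ⟨S, hS⟩ : ∃ S : Finset (ZMod M), S = lift N M A := ⟨_, rfl⟩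
  rw [← hS] at hcard
  obtain ⟨s, hs⟩ : ∃ s : ℕ, s = M / q + 1 := ⟨_, rfl⟩
  rw [← hs] at hbad
  have hs1 : 1 ≤ s := by rw [hs]; exact Nat.le_add_left 1 _
  have hqs : q * s ≤ 2 * M := by
    rw [hs, mul_add, mul_one]
    have := Nat.mul_div_le M q
    omega
  have hSM : S.card ≤ M := by
    have := card_le_univ S
    rwa [ZMod.card] at this
  have hs2 : 2 * s ≤ S.card := by
    have h1 : 16 * N * (q * (2 * s)) ≤ 16 * N * (q * S.card) := by
      calc 16 * N * (q * (2 * s)) = 32 * N * (q * s) := by ring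
        _ ≤ 32 * N * (2 * M) := Nat.mul_le_mul_left _ hqs
        _ ≤ (128 * N) * M := by nlinarith
        _ ≤ (q * A.card) * M := Nat.mul_le_mul_right _ hqA
        _ = q * (A.card * M) := by ring
        _ ≤ q * (16 * N * S.card) := Nat.mul_le_mul_left _ hcard
        _ = _ := by ring
    have h2 : q * (2 * s) ≤ q * S.card := Nat.le_of_mul_le_mul_left h1 (by omega)
    exact Nat.le_of_mul_le_mul_left h2 hq0
  -- a good subset
  have hgood : ∃ B : Finset (ZMod M), B ⊆ S ∧ BohrGood C c k M B := by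
    by_contra hcon
    push Not at hcon
    have hsub : ((S.powersetCard s : Finset (Finset (ZMod M))) :
        Set (Finset (ZMod M))) ⊆ {B : Finset (ZMod M) | B.card = s ∧ ¬ BohrGood C c k M B} := by
      intro B hB
      rw [mem_coe, mem_powersetCard] at hB
      exact ⟨hB.2, hcon B hB.1⟩
    have h1 := Set.ncard_le_ncard hsub (Set.toFinite _)
    rw [Set.ncard_coe_finset, card_powersetCard] at h1
    have h2 := choose_lower S.card M s hs1 hs2 hSM θ δ hθ0 hδ (by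
      rw [hθ]
      have h3 : ((A.card * M : ℕ) : ℝ) ≤ ((16 * N * S.card : ℕ) : ℝ) := by exact_mod_cast hcard
      push_cast at h3
      rw [show 2 * ((A.card : ℝ) / (32 * N)) * M = (A.card * M) / (16 * N) by field_simp; ring,
        div_le_iff₀ (by positivity)]
      linarith) (by
      refine hqθ.trans (Real.rpow_le_rpow (by positivity) ?_ hδ.le)
      have hspos : (0 : ℝ) < s := by
        exact_mod_cast hs1
      rw [div_le_div_iff₀ (by norm_num) (by positivity)]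
      have h3 : (q : ℝ) * s ≤ 2 * M := by exact_mod_cast hqs
      linarith)
    have h3 : ((S.card.choose s : ℕ) : ℝ) ≤
        (({B : Finset (ZMod M) | B.card = s ∧ ¬ BohrGood C c k M B}.ncard : ℕ) : ℝ) := by exact_mod_cast h1
    linarith
  obtain ⟨B, hBS, Γ', ε, hε, hΓ', hcε, hsub⟩ := hgood
  obtain ⟨Γ, hΓ, hsub2⟩ := transfer (N := N) (M := M) (by omega) A Γ' ε
    (hsub.trans (two_mono (by rw [← hS]; exact hBS)))
  have hkpos : (0 : ℝ) < k := by
    have : 0 < k := by omega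
    exact_mod_cast this
  refine ⟨Γ, 2 / 3 * ε, by positivity, ?_, ?_, hsub2⟩
  · rw [← hl]
    have h1 : (Γ.card : ℝ) ≤ Γ'.card + 1 := by exact_mod_cast hΓ
    have h2 : C * (k : ℝ) ≤ C * (24 * l / δ) := mul_le_mul_of_nonneg_left hj2 hC.le
    have h3 : (24 * C / δ + 2) * l = C * (24 * l / δ) + 2 * l := by field_simp
    rw [h3]
    linarith
  · rw [← hl]
    have h1 : c / (24 * l / δ) ≤ c / (k : ℝ) :=
      div_le_div_of_nonneg_left hc.le hkpos hj2
    have h2 : c * δ / 36 / l = 2 / 3 * (c / (24 * l / δ)) := by field_simp; ring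
    rw [h2]
    linarith

/-- Q1 has no exceptions. -/
theorem all_to_good (C c : ℝ) (hC : 0 < C) (hc : 0 < c)
    (h : ∀ N : ℕ, 0 < N → ∀ A : Finset (ZMod N), A.Nonempty → (A.card : ℝ) / (N : ℝ) ≤ 1 / 2 → Concl C c A)
    (k M : ℕ) (hk : 0 < k) (hM : 0 < M) (B : Finset (ZMod M)) (hB : M ≤ 2 ^ k * B.card) :
    BohrGood C c k M B := by
  have : NeZero M := ⟨hM.ne'⟩
  have hkpos : (0 : ℝ) < k := by exact_mod_cast hk
  have hMpos : (0 : ℝ) < M := by exact_mod_cast hM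
  have hBne : B.Nonempty := by
    rw [← card_pos]
    rcases Nat.eq_zero_or_pos B.card with h0 | h0
    · rw [h0] at hB; omega
    · exact h0
  have hBpos : (0 : ℝ) < B.card := by exact_mod_cast hBne.card_pos
  by_cases hhalf : (B.card : ℝ) / (M : ℝ) ≤ 1 / 2
  · obtain ⟨Γ, ε, hε, h1, h2, h3⟩ := h M hM B hBne hhalf
    have hl2 := log_ge hM B hBne hhalf
    have hlog := Real.log_two_gt_d9
    have hlog' := Real.log_two_lt_d9
    have hle : Real.log ((M : ℝ) / (B.card : ℝ)) ≤ k := by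
      have h4 : (M : ℝ) / B.card ≤ 2 ^ k := by
        rw [div_le_iff₀ hBpos]
        exact_mod_cast hB
      have h5 := Real.log_le_log (by positivity) h4
      rw [Real.log_pow] at h5
      nlinarith
    refine ⟨Γ, ε, hε, h1.trans (mul_le_mul_of_nonneg_left hle hC.le), le_trans ?_ h2, h3⟩
    exact div_le_div_of_nonneg_left hc.le (by linarith) hle
  · refine ⟨∅, c / k, by positivity, ?_, le_rfl, fun x _ => two_univ B ?_ x⟩
    · simp only [card_empty, Nat.cast_zero]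
      positivity
    · push Not at hhalf
      rw [lt_div_iff₀ hMpos] at hhalf
      have : (M : ℝ) < 2 * B.card := by linarith
      exact_mod_cast this

end Pool.Agent.Q215.BT
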