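import Pool.Agent.Q215.BT.Prod

/-! From sparse scales to all scales. -/

set_option autoImplicit false

namespace Pool.Agent.Q215.BT

open Finset Function

/-- One set. -/
theorem one_set (δ : ℝ) (hδ : 0 < δ) (hδ1 : δ ≤ 1) (C c : ℝ) (hC : 0 < C) (hc : 0 < c) (𝓜 : Set ℕ) (k : ℕ)
    (h : FewAt δ 𝓜 (BohrGood C c) k) (N : ℕ) (hN : 0 < N) (A : Finset (ZMod N)) (hAne : A.Nonempty)
    (l : ℝ) (hl : l = Real.log ((N : ℝ) / (A.card : ℝ))) (hl2 : Real.log 2 ≤ l)
    (hk : 400 * l / δ ≤ k) (E T : ℕ) (hE : 3 * k / (2 * c) ≤ (E : ℝ)) (hE0 : 0 < E) (hT1 : 1 ≤ T)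
    (hET : (E : ℝ) ≤ 2 ^ T) (g : ℝ) (hg : g = 60 * (C + 1) * l / δ)
    (hT : (2 : ℝ) ^ 203 * (2 * (1 + (1 + g))) ^ 16 ≤ 2 ^ T) :
    ∃ (m₀ : ℕ) (_ : NeZero m₀), N ≤ m₀ ∧ ∃ (H : AddSubgroup (ZMod m₀)) (d : ℕ) (a : Fin d → ZMod m₀)
      (L : Fin d → ℕ), Proper H a L ∧ (d : ℝ) ≤ 300 * (1 + g) ∧
      Real.log ((m₀ : ℝ) / ((cosetProg H a L).ncard : ℝ)) ≤
        g * T + 8000 * (1 + g) * (1 + Real.log (1 + (1 + g))) + d * Real.log (4 * (d : ℝ) ^ 3) ∧
      cosetProg H a L ⊆ twoAMinusTwoA (lift N m₀ A) := by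
  classical
  have : NeZero N := ⟨hN.ne'⟩
  have hNpos : (0 : ℝ) < N := by exact_mod_cast hN
  have hApos : (0 : ℝ) < A.card := by exact_mod_cast hAne.card_pos
  have hlog2 := Real.log_two_gt_d9
  have hlog2' := Real.log_two_lt_d9
  have hl0 : 0 < l := by linarith
  have h32 : Real.log 32 = 5 * Real.log 2 := by
    rw [show (32 : ℝ) = 2 ^ 5 by norm_num, Real.log_pow]; norm_num
  have h16 : Real.log 16 = 4 * Real.log 2 := by
    rw [show (16 : ℝ) = 2 ^ 4 by norm_num, Real.log_pow]; norm_num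
  have hδk : 400 * l ≤ δ * k := by
    rw [div_le_iff₀ hδ] at hk; linarith
  have hkpos : (0 : ℝ) < k := lt_of_lt_of_le (by positivity) hk
  have hk1 : (1 : ℝ) ≤ k := by
    have : 0 < k := by exact_mod_cast hkpos
    exact_mod_cast this
  -- the number of factors
  obtain ⟨num, hnum⟩ : ∃ num : ℝ, num = δ * ((k : ℝ) - 2) * Real.log 2 - 5 * Real.log 2 := ⟨_, rfl⟩
  obtain ⟨den, hden⟩ : ∃ den : ℝ, den = l + 4 * Real.log 2 := ⟨_, rfl⟩
  have hden0 : 0 < den := by rw [hden]; positivity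
  have hden5 : den ≤ 5 * l := by rw [hden]; linarith
  have hnum1 : δ * k / 2 ≤ num := by
    rw [hnum]
    have h1 : δ * k * 0.69 ≤ δ * k * Real.log 2 := by
      apply mul_le_mul_of_nonneg_left (by linarith) (by positivity)
    have h2 : δ * Real.log 2 ≤ 1 * 0.7 := by
      apply mul_le_mul hδ1 (by linarith) (by linarith) (by norm_num)
    have h3 : δ * ((k : ℝ) - 2) * Real.log 2 = δ * k * Real.log 2 - 2 * (δ * Real.log 2) := by ring
    rw [h3]
    linarith
  obtain ⟨n, hn⟩ : ∃ n : ℕ, n = ⌊num / den⌋₊ := ⟨_, rfl⟩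
  have hnumpos : 0 < num := lt_of_lt_of_le (by positivity) hnum1
  have hq : δ * k / (10 * l) ≤ num / den := by
    rw [div_le_div_iff₀ (by positivity) hden0]
    calc δ * k * den ≤ δ * k * (5 * l) := mul_le_mul_of_nonneg_left hden5 (by positivity)
      _ = δ * k / 2 * (10 * l) := by ring
      _ ≤ num * (10 * l) := mul_le_mul_of_nonneg_right hnum1 (by positivity)
  have hn1 : num / den < n + 1 := by rw [hn]; exact Nat.lt_floor_add_one _
  have hn2 : (n : ℝ) ≤ num / den := by rw [hn]; exact Nat.floor_le (by positivity)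
  have h40 : 40 ≤ δ * k / (10 * l) := by
    rw [le_div_iff₀ (by positivity)]; linarith
  have hn39 : (39 : ℝ) ≤ n := by linarith
  have hnpos : (0 : ℝ) < n := by linarith
  have hn0 : 0 < n := by exact_mod_cast hnpos
  have hn3 : δ * k ≤ 20 * l * n := by
    have h1 : δ * k / (10 * l) ≤ 2 * n := by linarith
    rw [div_le_iff₀ (by positivity)] at h1
    linarith
  have hn4 : n * den ≤ num := by
    rw [le_div_iff₀ hden0] at hn2; exact hn2
  obtain ⟨m, hm16, hm0, hcop⟩ := exists_moduli n (16 * N)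
  have hinst : ∀ i, NeZero (m i) := fun i => ⟨(hm0 i).ne'⟩
  obtain ⟨P, hPcard, hP⟩ := exists_prodSet m hm0 hcop (fun i => lift N (m i) A)
  obtain ⟨M, hM⟩ : ∃ M : ℕ, M = ∏ i, m i := ⟨_, rfl⟩
  have hMpos' : 0 < ∏ i, m i := Finset.prod_pos fun i _ => hm0 i
  have hMinst : NeZero (∏ i, m i) := ⟨hMpos'.ne'⟩
  have hMpos : (0 : ℝ) < ((∏ i, m i : ℕ) : ℝ) := by exact_mod_cast hMpos'
  have hlc : ∀ i, (A.card : ℝ) * m i ≤ 16 * N * (lift N (m i) A).card := by
    intro i
    exact_mod_cast card_lift (hm16 i) A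
  have hmpos : ∀ i, (0 : ℝ) < m i := fun i => by exact_mod_cast hm0 i
  have hApos' : ∀ i, (0 : ℝ) < (lift N (m i) A).card := by
    intro i
    have h1 := hlc i
    have h2 : 0 < (A.card : ℝ) * m i := mul_pos hApos (hmpos i)
    by_contra hcon
    push Not at hcon
    nlinarith
  have hPpos : (0 : ℝ) < P.card := by
    rw [hPcard]
    push_cast
    exact Finset.prod_pos fun i _ => hApos' i
  have hPne : P.Nonempty := by
    rw [← card_pos]; exact_mod_cast hPpos
  have hdens : Real.log (((∏ i, m i : ℕ) : ℝ) / (P.card : ℝ)) ≤ n * den := by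
    have h1 : ((∏ i, m i : ℕ) : ℝ) / (P.card : ℝ) ≤ (16 * (N / A.card)) ^ n := by
      rw [hPcard]
      push_cast
      rw [← Finset.prod_div_distrib]
      calc ∏ i, (m i : ℝ) / ((lift N (m i) A).card : ℝ) ≤ ∏ _i : Fin n, (16 * ((N : ℝ) / A.card)) := by
            apply Finset.prod_le_prod
            · intro i _
              exact (div_pos (hmpos i) (hApos' i)).le
            · intro i _
              rw [div_le_iff₀ (hApos' i)]
              have h2 : 16 * ((N : ℝ) / A.card) * ((lift N (m i) A).card : ℝ) =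
                  16 * N * ((lift N (m i) A).card : ℝ) / A.card := by ring
              rw [h2, le_div_iff₀ hApos]
              linarith [hlc i]
        _ = _ := by rw [Finset.prod_const, card_univ, Fintype.card_fin]
    have h2 := Real.log_le_log (by positivity) h1
    rw [Real.log_pow, Real.log_mul (by norm_num) (by positivity), ← hl, h16] at h2
    rw [hden]
    linarith
  obtain ⟨Γ, ε, hε, hΓ, hcε, hsub⟩ := few_scale δ hδ hδ1 C c hC hc 𝓜 k h (∏ i, m i) hMpos' P hPne (by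
    rw [h32]
    rw [hnum] at hn4
    linarith)
  have hEpos : (0 : ℝ) < E := by exact_mod_cast hE0
  have hEε : 1 / (E : ℝ) ≤ ε := by
    refine le_trans ?_ hcε
    rw [div_le_div_iff₀ hEpos hkpos]
    rw [div_le_iff₀ (by positivity)] at hE
    linarith
  obtain ⟨i, hi⟩ := product_factor hn0 m hm0 hcop (bohr Γ (1 / ((E : ℝ) * 2 ^ (2 * T)))) (Set.toFinite _)
    ⟨0, bohr_zero Γ (by positivity)⟩
  have hD : Real.log ((m i : ℝ) / ((pr m i '' bohr Γ (1 / ((E : ℝ) * 2 ^ (2 * T)))).ncard : ℝ)) ≤ g * T := by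
    have h1 := bohr_size_ge Γ (E * 2 ^ (2 * T)) (by positivity)
    have h2 : (1 : ℝ) / ((E * 2 ^ (2 * T) : ℕ) : ℝ) = 1 / ((E : ℝ) * 2 ^ (2 * T)) := by push_cast; ring
    rw [h2] at h1
    obtain ⟨b, hb⟩ : ∃ b : ℕ, b = (bohr Γ (1 / ((E : ℝ) * 2 ^ (2 * T)))).ncard := ⟨_, rfl⟩
    rw [← hb] at h1 hi
    have hb0 : 0 < b := by
      rcases Nat.eq_zero_or_pos b with h0 | h0
      · rw [h0, mul_zero] at h1; omega
      · exact h0
    have hbpos : (0 : ℝ) < b := by exact_mod_cast hb0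
    have h3 : Real.log (((∏ i, m i : ℕ) : ℝ) / b) ≤ Γ.card * Real.log ((E : ℝ) * 2 ^ (2 * T)) := by
      rw [← Real.log_pow]
      apply Real.log_le_log (by positivity)
      rw [div_le_iff₀ hbpos]
      exact_mod_cast h1
    have h4 : Real.log ((E : ℝ) * 2 ^ (2 * T)) ≤ 3 * T := by
      have h5 : (E : ℝ) * 2 ^ (2 * T) ≤ 2 ^ (3 * T) := by
        calc (E : ℝ) * 2 ^ (2 * T) ≤ 2 ^ T * 2 ^ (2 * T) := mul_le_mul_of_nonneg_right hET (by positivity)
          _ = 2 ^ (3 * T) := by rw [← pow_add]; congr 1; ring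
      have h6 := Real.log_le_log (by positivity) h5
      rw [Real.log_pow] at h6
      push_cast at h6
      have hTpos : (0 : ℝ) ≤ T := Nat.cast_nonneg _
      nlinarith
    have hTpos : (0 : ℝ) ≤ T := Nat.cast_nonneg _
    have h5 : (Γ.card : ℝ) ≤ (C + 1) * (20 * l * n / δ) := by
      have h6 : (k : ℝ) ≤ 20 * l * n / δ := by
        rw [le_div_iff₀ hδ]; linarith
      calc (Γ.card : ℝ) ≤ C * k + 1 := hΓ
        _ ≤ (C + 1) * k := by linarith
        _ ≤ _ := mul_le_mul_of_nonneg_left h6 (by positivity)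
    have h6 : (n : ℝ) * Real.log ((m i : ℝ) / ((pr m i '' bohr Γ (1 / ((E : ℝ) * 2 ^ (2 * T)))).ncard : ℝ)) ≤
        n * (g * T) := by
      calc _ ≤ Real.log (((∏ i, m i : ℕ) : ℝ) / b) := hi
        _ ≤ Γ.card * Real.log ((E : ℝ) * 2 ^ (2 * T)) := h3
        _ ≤ Γ.card * (3 * T) := mul_le_mul_of_nonneg_left h4 (Nat.cast_nonneg _)
        _ ≤ (C + 1) * (20 * l * n / δ) * (3 * T) := mul_le_mul_of_nonneg_right h5 (by positivity)
        _ = n * (g * T) := by rw [hg]; field_simp; ring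
    exact le_of_mul_le_mul_left h6 hnpos
  have hg0 : 0 ≤ g := by rw [hg]; positivity
  obtain ⟨H, d, a, L, hprop, hd, hsize, hPsub⟩ := one_factor (pr m i) Γ E T hE0 hT1 g hg0 hD hT
  refine ⟨m i, hinst i, by have := hm16 i; omega, H, d, a, L, hprop, hd, hsize, ?_⟩
  refine hPsub.trans (subset_trans ?_ (pr_two m (fun i => lift N (m i) A) P hP i))
  exact Set.image_mono ((bohr_mono_r Γ hEε).trans hsub)

end Pool.Agent.Q215.BT
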