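import Pool.Agent.Q215.BT.Prog

/-! Q1 and sets of integers of positive upper Banach density. -/

set_option autoImplicit false

namespace Pool.Agent.Q215.BT

open Finset Filter Topology

/-- The Bohr set in the integers. -/
def bohrZ (Θ : Finset ℝ) (ε : ℝ) : Set ℤ := {n | ∀ θ ∈ Θ, |(n : ℝ) * θ - ((round ((n : ℝ) * θ) : ℤ) : ℝ)| ≤ ε}

/-- The set `2A - 2A` for a set of integers. -/
def twoZ (A : Set ℤ) : Set ℤ := {n | ∃ a₁ ∈ A, ∃ a₂ ∈ A, ∃ a₃ ∈ A, ∃ a₄ ∈ A, n = a₁ + a₂ - a₃ - a₄}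

/-- The upper Banach density is at least `β`. -/
def UpperDensity (A : Set ℤ) (β : ℝ) : Prop :=
  ∀ L₀ : ℕ, ∃ (a : ℤ) (L : ℕ), L₀ ≤ L ∧ β * L ≤ ((A ∩ Set.Ico a (a + L)).ncard : ℝ)

/-- Q1 for sets of integers. -/
def Q1Z : Prop := ∃ C : ℝ, 0 < C ∧ ∃ c : ℝ, 0 < c ∧ ∀ β : ℝ, 0 < β → β ≤ 1 / 2 → ∀ A : Set ℤ, UpperDensity A β →
  ∃ (Θ : Finset ℝ) (ε : ℝ), 0 < ε ∧ (Θ.card : ℝ) ≤ C * Real.log (1 / β) ∧ c / Real.log (1 / β) ≤ ε ∧
    bohrZ Θ ε ⊆ twoZ A

/-- One interval. -/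
theorem one_interval (C c : ℝ) (hC : 0 < C) (hc : 0 < c)
    (h : ∀ N : ℕ, 0 < N → ∀ A : Finset (ZMod N), A.Nonempty → (A.card : ℝ) / (N : ℝ) ≤ 1 / 2 → Concl C c A)
    (β : ℝ) (hβ : 0 < β) (A : Set ℤ) (a : ℤ) (L : ℕ) (hL : 0 < L)
    (hA : β * L ≤ ((A ∩ Set.Ico a (a + L)).ncard : ℝ)) (d : ℕ) (hd : C * Real.log (4 / β) < d + 1) :
    ∃ φ : Fin d → UnitAddCircle, ∀ n : ℤ, |n| < L → (∀ i, ‖n • φ i‖ ≤ c / Real.log (4 / β)) → n ∈ twoZ A := by
  classical
  have hLpos : (0 : ℝ) < L := by exact_mod_cast hL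
  have hIfin : (A ∩ Set.Ico a (a + L)).Finite := (Set.finite_Ico a (a + L)).subset Set.inter_subset_right
  obtain ⟨I, hI⟩ : ∃ I : Finset ℤ, I = hIfin.toFinset := ⟨_, rfl⟩
  have hImem : ∀ n, n ∈ I ↔ n ∈ A ∧ a ≤ n ∧ n < a + L := by
    intro n; rw [hI, Set.Finite.mem_toFinset]; rfl
  have hIcard : I.card = (A ∩ Set.Ico a (a + L)).ncard := by
    rw [hI, Set.ncard_eq_toFinset_card _ hIfin]
  obtain ⟨M, hM⟩ : ∃ M : ℕ, M = 4 * L := ⟨_, rfl⟩
  have hM0 : 0 < M := by omega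
  have hMpos : (0 : ℝ) < M := by exact_mod_cast hM0
  have hMR : (M : ℝ) = 4 * L := by rw [hM]; push_cast; ring
  have : NeZero M := ⟨hM0.ne'⟩
  let f : ℤ → ZMod M := fun n => ((n - a : ℤ) : ZMod M)
  have hinj : Set.InjOn f I := by
    intro n hn n' hn' hnn
    rw [mem_coe, hImem] at hn hn'
    have h1 : (((n - a : ℤ)) : ZMod M) = ((n' - a : ℤ) : ZMod M) := hnn
    rw [ZMod.intCast_eq_intCast_iff_dvd_sub] at h1
    obtain ⟨w, hw⟩ := h1
    have h2 : w = 0 := by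
      rw [hM] at hw
      push_cast at hw
      by_contra hne
      rcases lt_or_gt_of_ne hne with h3 | h3
      · nlinarith [hn.2.1, hn.2.2, hn'.2.1, hn'.2.2]
      · nlinarith [hn.2.1, hn.2.2, hn'.2.1, hn'.2.2]
    rw [h2, mul_zero] at hw
    linarith
  obtain ⟨B, hB⟩ : ∃ B : Finset (ZMod M), B = I.image f := ⟨_, rfl⟩
  have hBcard : B.card = I.card := by rw [hB]; exact card_image_of_injOn hinj
  have hBge : β * L ≤ B.card := by rw [hBcard, hIcard]; exact hA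
  have hBpos : (0 : ℝ) < B.card := lt_of_lt_of_le (by positivity) hBge
  have hBle : B.card ≤ L := by
    rw [hBcard]
    have h1 : I ⊆ Finset.Ico a (a + L) := by
      intro n hn
      rw [hImem] at hn
      rw [Finset.mem_Ico]
      exact hn.2
    have h2 := card_le_card h1
    rw [Int.card_Ico] at h2
    have : (a + L - a).toNat = L := by simp
    omega
  have hne : B.Nonempty := by
    rw [← card_pos]; exact_mod_cast hBpos
  have hdens : (B.card : ℝ) / (M : ℝ) ≤ 1 / 2 := by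
    rw [div_le_iff₀ hMpos]
    have : (B.card : ℝ) ≤ L := by exact_mod_cast hBle
    linarith
  obtain ⟨Γ, ε, hε, h1, h2, h3⟩ := h M hM0 B hne hdens
  have hl2 := log_ge hM0 B hne hdens
  have hlog2 := Real.log_two_gt_d9
  have hle : Real.log ((M : ℝ) / B.card) ≤ Real.log (4 / β) := by
    apply Real.log_le_log (by positivity)
    rw [div_le_div_iff₀ hBpos hβ]
    have : (M : ℝ) * β = 4 * (β * L) := by rw [hMR]; ring
    linarith
  have hΓd : Γ.card ≤ d := by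
    have h4 : (Γ.card : ℝ) < d + 1 := lt_of_le_of_lt (h1.trans (mul_le_mul_of_nonneg_left hle hC.le)) hd
    have h5 : Γ.card < d + 1 := by exact_mod_cast h4
    omega
  have hεle : c / Real.log (4 / β) ≤ ε := by
    refine le_trans ?_ h2
    exact div_le_div_of_nonneg_left hc.le (by linarith) hle
  refine ⟨fun i => if hi : i.1 < Γ.card then ZMod.toAddCircle (Γ.equivFin.symm ⟨i.1, hi⟩).1 else 0, ?_⟩
  intro n hn hφ
  have hmem : ((n : ℤ) : ZMod M) ∈ bohr Γ ε := by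
    rw [mem_bohr]
    intro γ hγ
    obtain ⟨i, hi⟩ : ∃ i, Γ.equivFin.symm i = ⟨γ, hγ⟩ := ⟨Γ.equivFin ⟨γ, hγ⟩, by simp⟩
    have h4 := hφ ⟨i.1, lt_of_lt_of_le i.2 hΓd⟩
    simp only [dif_pos i.2] at h4
    have h5 : (Γ.equivFin.symm ⟨i.1, i.2⟩).1 = γ := by
      have : (⟨i.1, i.2⟩ : Fin Γ.card) = i := rfl
      rw [this, hi]
    rw [h5, ← map_zsmul, zsmul_eq_mul, mul_comm] at h4
    exact h4.trans hεle
  obtain ⟨b₁, hb₁, b₂, hb₂, b₃, hb₃, b₄, hb₄, he⟩ := h3 hmem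
  rw [hB, mem_image] at hb₁ hb₂ hb₃ hb₄
  obtain ⟨n₁, hn₁, rfl⟩ := hb₁
  obtain ⟨n₂, hn₂, rfl⟩ := hb₂
  obtain ⟨n₃, hn₃, rfl⟩ := hb₃
  obtain ⟨n₄, hn₄, rfl⟩ := hb₄
  rw [hImem] at hn₁ hn₂ hn₃ hn₄
  refine ⟨n₁, hn₁.1, n₂, hn₂.1, n₃, hn₃.1, n₄, hn₄.1, ?_⟩
  have he' : ((n : ℤ) : ZMod M) = ((n₁ + n₂ - n₃ - n₄ : ℤ) : ZMod M) := by
    rw [he]
    show ((n₁ - a : ℤ) : ZMod M) + ((n₂ - a : ℤ) : ZMod M) - ((n₃ - a : ℤ) : ZMod M) - ((n₄ - a : ℤ) : ZMod M) = _
    push_cast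
    ring
  rw [ZMod.intCast_eq_intCast_iff_dvd_sub] at he'
  obtain ⟨w, hw⟩ := he'
  rw [hM] at hw
  push_cast at hw
  rw [abs_lt] at hn
  have h2 : w = 0 := by
    by_contra hne
    have hL' : (0 : ℤ) < L := by exact_mod_cast hL
    rcases lt_or_gt_of_ne hne with h3 | h3
    · have : w ≤ -1 := by omega
      nlinarith [hn₁.2.1, hn₁.2.2, hn₂.2.1, hn₂.2.2, hn₃.2.1, hn₃.2.2, hn₄.2.1, hn₄.2.2]
    · have : 1 ≤ w := by omega
      nlinarith [hn₁.2.1, hn₁.2.2, hn₂.2.1, hn₂.2.2, hn₃.2.1, hn₃.2.2, hn₄.2.1, hn₄.2.2]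
  rw [h2, mul_zero] at hw
  linarith

theorem q1z_of_q1 (h : Q1) : Q1Z := by
  classical
  obtain ⟨C, hC, c, hc, h⟩ := h
  refine ⟨3 * C, by positivity, c / 6, by positivity, ?_⟩
  intro β hβ hβ2 A hA
  have hlog2 := Real.log_two_gt_d9
  have hl : Real.log 2 ≤ Real.log (1 / β) := by
    apply Real.log_le_log (by norm_num)
    rw [le_div_iff₀ hβ]; linarith
  have h4 : Real.log (4 / β) = 2 * Real.log 2 + Real.log (1 / β) := by
    rw [show (4 : ℝ) / β = 4 * (1 / β) by ring, Real.log_mul (by norm_num) (by positivity)]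
    rw [show (4 : ℝ) = 2 ^ 2 by norm_num, Real.log_pow]
    norm_num
  have hl4 : Real.log (4 / β) ≤ 3 * Real.log (1 / β) := by linarith
  have hl40 : 0 < Real.log (4 / β) := by linarith
  obtain ⟨ε, hε⟩ : ∃ ε : ℝ, ε = c / Real.log (4 / β) := ⟨_, rfl⟩
  have hε0 : 0 < ε := by rw [hε]; positivity
  obtain ⟨d, hd⟩ : ∃ d : ℕ, d = ⌊C * Real.log (4 / β)⌋₊ := ⟨_, rfl⟩
  have hd1 : C * Real.log (4 / β) < d + 1 := by rw [hd]; exact Nat.lt_floor_add_one _
  have hd2 : (d : ℝ) ≤ C * Real.log (4 / β) := by rw [hd]; exact Nat.floor_le (by positivity)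
  choose a L hL1 hL2 using fun t : ℕ => hA (t + 1)
  have hex : ∀ t : ℕ, ∃ φ : Fin d → UnitAddCircle, ∀ n : ℤ, |n| < L t → (∀ i, ‖n • φ i‖ ≤ ε) → n ∈ twoZ A := by
    intro t
    rw [hε]
    exact one_interval C c hC hc h β hβ A (a t) (L t) (by have := hL1 t; omega) (hL2 t) d hd1
  choose φ hφ using hex
  obtain ⟨φ', -, u, hu, hlim⟩ := (isCompact_univ (X := Fin d → UnitAddCircle)).tendsto_subseq (x := φ)
    (fun t => Set.mem_univ _)
  have hsurj : ∀ i, ∃ θ : ℝ, (θ : UnitAddCircle) = φ' i := fun i => QuotientAddGroup.mk_surjective (φ' i)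
  choose θ hθ using hsurj
  refine ⟨univ.image θ, ε / 2, by positivity, ?_, ?_, ?_⟩
  · have h1 : ((univ.image θ).card : ℝ) ≤ d := by
      have := card_image_le (s := (univ : Finset (Fin d))) (f := θ)
      rw [card_univ, Fintype.card_fin] at this
      exact_mod_cast this
    calc ((univ.image θ).card : ℝ) ≤ d := h1
      _ ≤ C * Real.log (4 / β) := hd2
      _ ≤ C * (3 * Real.log (1 / β)) := mul_le_mul_of_nonneg_left hl4 hC.le
      _ = _ := by ring
  · rw [hε]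
    have h1 : c / (3 * Real.log (1 / β)) ≤ c / Real.log (4 / β) :=
      div_le_div_of_nonneg_left hc.le hl40 hl4
    have h2 : c / 6 / Real.log (1 / β) = c / (3 * Real.log (1 / β)) / 2 := by
      have : Real.log (1 / β) ≠ 0 := by linarith
      field_simp
      ring
    rw [h2]
    linarith
  · intro n hn
    have hn' : ∀ i, ‖n • φ' i‖ ≤ ε / 2 := by
      intro i
      have h1 := hn (θ i) (mem_image_of_mem _ (mem_univ i))
      rw [← hθ i, ← AddCircle.coe_zsmul, zsmul_eq_mul, UnitAddCircle.norm_eq]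
      exact h1
    have hev : ∀ᶠ t in atTop, ∀ i, ‖n • φ (u t) i‖ ≤ ε := by
      rw [eventually_all]
      intro i
      have h1 : Tendsto (fun t => ‖n • φ (u t) i‖) atTop (𝓝 ‖n • φ' i‖) := by
        have h2 : Tendsto (fun t => φ (u t) i) atTop (𝓝 (φ' i)) := (tendsto_pi_nhds.1 hlim) i
        exact (h2.const_smul n).norm
      have h3 : ‖n • φ' i‖ < ε := lt_of_le_of_lt (hn' i) (by linarith)
      filter_upwards [h1.eventually (gt_mem_nhds h3)] with t ht using ht.le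
    obtain ⟨t, ht, ht2⟩ := (hev.and (eventually_ge_atTop n.natAbs)).exists
    refine hφ (u t) n ?_ ht
    have h1 := hL1 (u t)
    have h2 : t ≤ u t := hu.id_le t
    have h3 : (n.natAbs : ℤ) = |n| := Int.natCast_natAbs n
    have h4 : n.natAbs < L (u t) := by omega
    rw [← h3]
    exact_mod_cast h4

theorem q1_of_q1z (h : Q1Z) : Q1 := by
  classical
  obtain ⟨C, hC, c, hc, h⟩ := h
  refine ⟨C + 2, by positivity, c / 2, by positivity, ?_⟩
  intro N hN A hAne hα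
  have : NeZero N := ⟨hN.ne'⟩
  have hNpos : (0 : ℝ) < N := by exact_mod_cast hN
  have hApos : (0 : ℝ) < A.card := by exact_mod_cast hAne.card_pos
  obtain ⟨β, hβ⟩ : ∃ β : ℝ, β = (A.card : ℝ) / N := ⟨_, rfl⟩
  have hβ0 : 0 < β := by rw [hβ]; positivity
  have h1β : 1 / β = (N : ℝ) / A.card := by rw [hβ, one_div_div]
  have hl2 := log_ge hN A hAne hα
  have hlog2 := Real.log_two_gt_d9
  have hdens : UpperDensity {n : ℤ | (n : ZMod N) ∈ A} β := by
    intro L₀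
    refine ⟨0, N * L₀, Nat.le_mul_of_pos_left _ hN, ?_⟩
    have h1 : A.card * L₀ ≤ ({n : ℤ | (n : ZMod N) ∈ A} ∩ Set.Ico 0 (0 + ((N * L₀ : ℕ) : ℤ))).ncard := by
      rw [← Finset.card_range L₀, ← card_product, ← Set.ncard_coe_finset, Finset.card_range]
      refine Set.ncard_le_ncard_of_injOn (fun p : ZMod N × ℕ => (p.1.val : ℤ) + N * p.2) ?_ ?_
        ((Set.finite_Ico _ _).subset Set.inter_subset_right)
      · rintro ⟨x, j⟩ hx
        rw [mem_coe, mem_product, mem_range] at hx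
        have hxv := ZMod.val_lt x
        refine ⟨?_, ?_, ?_⟩
        · show (((x.val : ℤ) + N * j : ℤ) : ZMod N) ∈ A
          push_cast
          rw [ZMod.natCast_zmod_val, ZMod.natCast_self, zero_mul, add_zero]
          exact hx.1
        · positivity
        · show (x.val : ℤ) + N * j < 0 + ((N * L₀ : ℕ) : ℤ)
          have h3 : x.val + N * j < N * L₀ := by
            have h4 : N * (j + 1) ≤ N * L₀ := Nat.mul_le_mul_left _ hx.2
            have h5 : N * (j + 1) = N * j + N := by ring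
            omega
          have h4 : ((x.val + N * j : ℕ) : ℤ) < ((N * L₀ : ℕ) : ℤ) := by exact_mod_cast h3
          push_cast at h4 ⊢
          linarith
      · rintro ⟨x, j⟩ - ⟨x', j'⟩ - hxx
        have h3 : (x.val : ℤ) + N * j = x'.val + N * j' := hxx
        have h4 : x.val + N * j = x'.val + N * j' := by exact_mod_cast h3
        have hxv := ZMod.val_lt x
        have hxv' := ZMod.val_lt x'
        have h5 : x.val = x'.val := by
          have h6 := congrArg (· % N) h4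
          simp only [Nat.add_mul_mod_self_left] at h6
          rwa [Nat.mod_eq_of_lt hxv, Nat.mod_eq_of_lt hxv'] at h6
        have h6 : N * j = N * j' := by omega
        have h7 : j = j' := Nat.eq_of_mul_eq_mul_left hN h6
        rw [h7, ZMod.val_injective N h5]
    have h2 : ((A.card * L₀ : ℕ) : ℝ) ≤
      (({n : ℤ | (n : ZMod N) ∈ A} ∩ Set.Ico 0 (0 + ((N * L₀ : ℕ) : ℤ))).ncard : ℝ) := by exact_mod_cast h1
    refine le_trans (le_of_eq ?_) h2
    rw [hβ]; push_cast; field_simp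
  obtain ⟨Θ, ε, hε, h1, h2, h3⟩ := h β hβ0 (by rw [hβ]; exact hα) _ hdens
  rw [h1β] at h1 h2
  refine ⟨insert 1 (Θ.image fun θ : ℝ => ((round ((N : ℝ) * θ) : ℤ) : ZMod N)), ε / 2, by positivity, ?_, ?_, ?_⟩
  · have h4 : ((insert (1 : ZMod N) (Θ.image fun θ : ℝ => ((round ((N : ℝ) * θ) : ℤ) : ZMod N))).card : ℝ) ≤ Θ.card + 1 := by
      exact_mod_cast (card_insert_le _ _).trans (Nat.add_le_add_right card_image_le _)
    nlinarith
  · have : c / 2 / Real.log ((N : ℝ) / A.card) = c / Real.log ((N : ℝ) / A.card) / 2 := by ring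
    rw [this]
    linarith
  · intro x hx
    rw [mem_bohr] at hx
    obtain ⟨X, hX⟩ : ∃ X : ℤ, X = x.valMinAbs := ⟨_, rfl⟩
    have hxX : x = ((X : ℤ) : ZMod N) := by rw [hX, ZMod.coe_valMinAbs]
    have hXN : |(X : ℝ)| ≤ N / 2 := by
      have h1 := ZMod.natAbs_valMinAbs_le x
      rw [← hX] at h1
      have h2 : X.natAbs * 2 ≤ N := by omega
      have h3 : ((X.natAbs : ℕ) : ℝ) * 2 ≤ N := by exact_mod_cast h2
      rw [Nat.cast_natAbs, Int.cast_abs] at h3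
      linarith
    -- the frequency 1
    have hX1 : |(X : ℝ)| / N ≤ ε / 2 := by
      have h4 := hx 1 (mem_insert_self _ _)
      rw [one_mul, hxX, ZMod.toAddCircle_intCast] at h4
      rcases lt_or_eq_of_le hXN with h5 | h5
      · have h6 : |(X : ℝ) / N| < 1 / 2 := by
          rw [abs_div, abs_of_pos hNpos, div_lt_iff₀ hNpos]
          linarith
        rw [H112.lattice_norm_lt h6, abs_div, abs_of_pos hNpos] at h4
        exact h4
      · have h6 : |(X : ℝ) / N| = 1 / 2 := by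
          rw [abs_div, abs_of_pos hNpos, h5]; field_simp
        have h7 : ‖(((X : ℝ) / N : ℝ) : UnitAddCircle)‖ = 1 / 2 := by
          rw [UnitAddCircle.norm_eq]
          rcases abs_eq (by norm_num : (0 : ℝ) ≤ 1 / 2) |>.1 h6 with h8 | h8
          · rw [h8]; norm_num
          · rw [h8]; norm_num
        rw [h7] at h4
        rw [abs_div, abs_of_pos hNpos] at h6
        rw [h6]; exact h4
    have hmem : X ∈ bohrZ Θ ε := by
      intro θ hθ
      obtain ⟨g, hg⟩ : ∃ g : ℤ, g = round ((N : ℝ) * θ) := ⟨_, rfl⟩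
      have hgθ : |(N : ℝ) * θ - g| ≤ 1 / 2 := by rw [hg]; exact abs_sub_round _
      have h4 := hx ((g : ℤ) : ZMod N) (mem_insert_of_mem (mem_image.2 ⟨θ, hθ, by rw [hg]⟩))
      have h5 : ((g : ℤ) : ZMod N) * x = ((g * X : ℤ) : ZMod N) := by rw [hxX]; push_cast; ring
      rw [h5, ZMod.toAddCircle_intCast] at h4
      rw [← UnitAddCircle.norm_eq]
      have h6 : (X : ℝ) * θ = (((g * X : ℤ) : ℝ) / N) + X * (N * θ - g) / N := by
        push_cast; field_simp; ring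
      rw [h6, AddCircle.coe_add]
      have h7 : ‖((X * (N * θ - g) / N : ℝ) : UnitAddCircle)‖ ≤ |X * (N * θ - g) / N| := by
        rw [UnitAddCircle.norm_eq]
        have := round_le (X * (N * θ - g) / N) 0
        simpa using this
      have h8 : |(X : ℝ) * (N * θ - g) / N| ≤ ε / 4 := by
        rw [abs_div, abs_mul, abs_of_pos hNpos]
        calc |(X : ℝ)| * |(N : ℝ) * θ - g| / N ≤ |(X : ℝ)| * (1 / 2) / N := by gcongr
          _ = (|(X : ℝ)| / N) / 2 := by ring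
          _ ≤ (ε / 2) / 2 := by linarith
          _ = ε / 4 := by ring
      calc ‖((((g * X : ℤ) : ℝ) / N : ℝ) : UnitAddCircle) + ((X * (N * θ - g) / N : ℝ) : UnitAddCircle)‖
          ≤ ‖((((g * X : ℤ) : ℝ) / N : ℝ) : UnitAddCircle)‖ + ‖((X * (N * θ - g) / N : ℝ) : UnitAddCircle)‖ :=
            norm_add_le _ _
        _ ≤ ε / 2 + ε / 4 := by linarith
        _ ≤ ε := by linarith
    obtain ⟨a₁, ha₁, a₂, ha₂, a₃, ha₃, a₄, ha₄, he⟩ := h3 hmem
    refine ⟨_, ha₁, _, ha₂, _, ha₃, _, ha₄, ?_⟩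
    rw [hxX, he]
    push_cast
    ring

theorem q1_iff_q1z : Q1 ↔ Q1Z := ⟨q1z_of_q1, q1_of_q1z⟩

end Pool.Agent.Q215.BT
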