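import Pool.Agent.Q215.BT.Fin

/-! From sparse scales to all scales: the constants. -/

set_option autoImplicit false

namespace Pool.Agent.Q215.BT

open Finset Function

theorem logaux {x a k u : ℝ} (hx : 0 < x) (ha : 1 ≤ a) (hk : 0 < k) (hxa : x ≤ a * k) (hlk : Real.log k ≤ u)
    (hu : 1 ≤ u) : Real.log x ≤ (Real.log a + 1) * u := by
  have h1 := Real.log_le_log hx hxa
  rw [Real.log_mul (by linarith) hk.ne'] at h1
  have h2 : 0 ≤ Real.log a := Real.log_nonneg ha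
  have h3 : Real.log a ≤ Real.log a * u := le_mul_of_one_le_right h2 hu
  have h4 : (Real.log a + 1) * u = Real.log a * u + u := by ring
  linarith

theorem arith_T {w u x T : ℝ} (hw : 0 ≤ w) (hu : 1 ≤ u) (hx : x ≤ w * u) (hT : T < x / Real.log 2 + 1) :
    T ≤ (2 * w + 1) * u := by
  have hlog2 := Real.log_two_gt_d9
  have h0 : 0 ≤ w * u := by positivity
  have h1 : x / Real.log 2 ≤ 2 * (w * u) := by
    rw [div_le_iff₀ (by linarith)]
    have h2 : 2 * (w * u) * Real.log 2 = (w * u) * (2 * Real.log 2) := by ring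
    rw [h2]
    have h3 : (w * u) * 1 ≤ (w * u) * (2 * Real.log 2) := mul_le_mul_of_nonneg_left (by linarith) h0
    linarith
  have h4 : (2 * w + 1) * u = 2 * (w * u) + u := by ring
  linarith

theorem arith_final {g g1 w z Y C' T k1 u : ℝ} {d : ℕ} (hg0 : 0 ≤ g) (hg10 : 0 < g1) (hw0 : 0 ≤ w)
    (hz : z = 300 * (1 + g1))
    (hY : Y = g1 * (2 * w + 1) + 8000 * (1 + g1) * (2 + Real.log (2 + g1)) + z * (5 + 3 * Real.log z))
    (hC' : C' = 2 * Y + z) (hk11 : 1 ≤ k1) (hu : u = Real.log (k1 + 1) / Real.log 2) (hu1 : 1 ≤ u)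
    (hlogk1 : Real.log k1 ≤ u) (hgk : g ≤ g1 * k1) (hT0 : 0 ≤ T) (hT : T ≤ (2 * w + 1) * u)
    (hd : (d : ℝ) ≤ 300 * (1 + g)) :
    (d : ℝ) ≤ C' * k1 ∧ g * T + 8000 * (1 + g) * (1 + Real.log (1 + (1 + g))) + d * Real.log (4 * (d : ℝ) ^ 3) ≤
      C' * k1 * Real.log (k1 + 1) := by
  have hlog2 := Real.log_two_gt_d9
  have hlog2' := Real.log_two_lt_d9
  have hlog0 : 0 < Real.log 2 := by linarith
  have hk0 : 0 < k1 := by linarith
  have hu0 : 0 ≤ u := by linarith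
  have hz1 : 1 ≤ z := by rw [hz]; linarith
  have hlz : 0 ≤ Real.log z := Real.log_nonneg hz1
  have hlg2 : 0 ≤ Real.log (2 + g1) := Real.log_nonneg (by linarith)
  have hY0 : 0 ≤ Y := by rw [hY]; positivity
  have c1 : 1 + g ≤ (1 + g1) * k1 := by
    have : (1 + g1) * k1 = k1 + g1 * k1 := by ring
    linarith
  have hdz : (d : ℝ) ≤ z * k1 := by
    have h1 : 300 * (1 + g) ≤ 300 * ((1 + g1) * k1) := mul_le_mul_of_nonneg_left c1 (by norm_num)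
    have h2 : z * k1 = 300 * ((1 + g1) * k1) := by rw [hz]; ring
    linarith
  have hYk : 0 ≤ Y * k1 := by positivity
  have hC'k : C' * k1 = 2 * (Y * k1) + z * k1 := by rw [hC']; ring
  refine ⟨by linarith, ?_⟩
  have b1 : g * T ≤ g1 * (2 * w + 1) * k1 * u := by
    calc g * T ≤ (g1 * k1) * ((2 * w + 1) * u) := mul_le_mul hgk hT hT0 (by positivity)
      _ = _ := by ring
  have b2 : 8000 * (1 + g) * (1 + Real.log (1 + (1 + g))) ≤
      8000 * (1 + g1) * (2 + Real.log (2 + g1)) * k1 * u := by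
    have c3 : 1 + (1 + g) ≤ (2 + g1) * k1 := by
      have : (2 + g1) * k1 = 2 * k1 + g1 * k1 := by ring
      linarith
    have c4 := logaux (by linarith) (by linarith) hk0 c3 hlogk1 hu1
    have c2 : 1 + Real.log (1 + (1 + g)) ≤ (2 + Real.log (2 + g1)) * u := by
      have : (2 + Real.log (2 + g1)) * u = (Real.log (2 + g1) + 1) * u + u := by ring
      linarith
    have c5 : 0 ≤ 1 + Real.log (1 + (1 + g)) := by
      have := Real.log_nonneg (show (1 : ℝ) ≤ 1 + (1 + g) by linarith)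
      linarith
    calc 8000 * (1 + g) * (1 + Real.log (1 + (1 + g)))
        ≤ (8000 * ((1 + g1) * k1)) * ((2 + Real.log (2 + g1)) * u) :=
          mul_le_mul (by linarith) c2 c5 (by positivity)
      _ = _ := by ring
  have b3 : d * Real.log (4 * (d : ℝ) ^ 3) ≤ z * (5 + 3 * Real.log z) * k1 * u := by
    rcases Nat.eq_zero_or_pos d with h0 | h0
    · rw [h0]; simp only [Nat.cast_zero, zero_mul]; positivity
    · have hdpos : (0 : ℝ) < d := by exact_mod_cast h0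
      have hd1 : (1 : ℝ) ≤ d := by exact_mod_cast h0
      have c1 : Real.log (4 * (d : ℝ) ^ 3) ≤ (5 + 3 * Real.log z) * u := by
        rw [Real.log_mul (by norm_num) (by positivity), Real.log_pow]
        have c2 : Real.log 4 = 2 * Real.log 2 := by
          rw [show (4 : ℝ) = 2 ^ 2 by norm_num, Real.log_pow]; norm_num
        have c3 := logaux hdpos hz1 hk0 hdz hlogk1 hu1
        rw [c2]
        push_cast
        have : (5 + 3 * Real.log z) * u = 2 * u + 3 * ((Real.log z + 1) * u) := by ring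
        linarith
      have c4 : 0 ≤ Real.log (4 * (d : ℝ) ^ 3) := Real.log_nonneg (by
        have : (1 : ℝ) ≤ (d : ℝ) ^ 3 := one_le_pow₀ hd1
        linarith)
      calc (d : ℝ) * Real.log (4 * (d : ℝ) ^ 3) ≤ (z * k1) * ((5 + 3 * Real.log z) * u) :=
            mul_le_mul hdz c1 c4 (by positivity)
        _ = _ := by ring
  have hΛu : Real.log (k1 + 1) = u * Real.log 2 := by rw [hu]; field_simp
  have b5 : Y * k1 * u ≤ C' * k1 * Real.log (k1 + 1) := by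
    rw [hΛu, hC'k]
    have d1 : 0 ≤ Y * k1 * u := by positivity
    have d2 : 0 ≤ z * k1 * (u * Real.log 2) := by positivity
    have d3 : (2 * (Y * k1) + z * k1) * (u * Real.log 2) =
      (Y * k1 * u) * (2 * Real.log 2) + z * k1 * (u * Real.log 2) := by ring
    rw [d3]
    have d4 : (Y * k1 * u) * 1 ≤ (Y * k1 * u) * (2 * Real.log 2) := mul_le_mul_of_nonneg_left (by linarith) d1
    linarith
  refine le_trans ?_ b5
  have b6 : Y * k1 * u = g1 * (2 * w + 1) * k1 * u + 8000 * (1 + g1) * (2 + Real.log (2 + g1)) * k1 * u +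
    z * (5 + 3 * Real.log z) * k1 * u := by rw [hY]; ring
  rw [b6]
  linarith

theorem q1_of_scales (δ : ℝ) (hδ : 0 < δ) (hδ1 : δ ≤ 1) (𝓜 𝒦 : Set ℕ) (D : ℕ)
    (h𝒦 : ∀ L : ℕ, 2 ≤ L → ∃ k ∈ 𝒦, L ≤ k ∧ k ≤ L ^ D) (C c : ℝ) (hC : 0 < C) (hc : 0 < c)
    (h : ∀ k ∈ 𝒦, FewAt δ 𝓜 (BohrGood C c) k) : Q1 := by
  classical
  obtain ⟨b, hb⟩ : ∃ b : ℝ, b = 400 / δ := ⟨_, rfl⟩
  have hb400 : 400 ≤ b := by rw [hb, le_div_iff₀ hδ]; linarith
  obtain ⟨g1, hg1⟩ : ∃ g1 : ℝ, g1 = 60 * (C + 1) / δ := ⟨_, rfl⟩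
  have hg10 : 0 < g1 := by rw [hg1]; positivity
  obtain ⟨e1, he1⟩ : ∃ e1 : ℝ, e1 = Real.log (3 / (2 * c) + 2) := ⟨_, rfl⟩
  have h32c : 0 < 3 / (2 * c) := by positivity
  have he10 : 0 ≤ e1 := by rw [he1]; exact Real.log_nonneg (by linarith)
  have hlb : 0 ≤ Real.log (b + 1) := Real.log_nonneg (by linarith)
  have hlg : 0 ≤ Real.log (4 + 2 * g1) := Real.log_nonneg (by linarith)
  have hlg2 : 0 ≤ Real.log (2 + g1) := Real.log_nonneg (by linarith)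
  obtain ⟨w, hw⟩ : ∃ w : ℝ, w = e1 + D * (Real.log (b + 1) + 1) + 203 + 16 * (Real.log (4 + 2 * g1) + 1) :=
    ⟨_, rfl⟩
  have hw0 : 0 ≤ w := by rw [hw]; positivity
  obtain ⟨z, hz⟩ : ∃ z : ℝ, z = 300 * (1 + g1) := ⟨_, rfl⟩
  have hz1 : 1 ≤ z := by rw [hz]; linarith
  have hlz : 0 ≤ Real.log z := Real.log_nonneg hz1
  obtain ⟨Y, hY⟩ : ∃ Y : ℝ, Y = g1 * (2 * w + 1) + 8000 * (1 + g1) * (2 + Real.log (2 + g1)) +
      z * (5 + 3 * Real.log z) := ⟨_, rfl⟩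
  have hY0 : 0 ≤ Y := by rw [hY]; positivity
  obtain ⟨C', hC'⟩ : ∃ C' : ℝ, C' = 2 * Y + z := ⟨_, rfl⟩
  have hC'0 : 0 < C' := by rw [hC']; linarith
  refine ⟨(180 * C' + 1) * 4 + 2, by positivity, 2 / 3 * (1 / (8 * (C' + 3))) / 4, by positivity, ?_⟩
  intro N hN A hAne hα
  have : NeZero N := ⟨hN.ne'⟩
  have hl2 := log_ge hN A hAne hα
  have hlog2 := Real.log_two_gt_d9
  have hlog2' := Real.log_two_lt_d9
  have hlog0 : 0 < Real.log 2 := by linarith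
  obtain ⟨l, hl⟩ : ∃ l : ℝ, l = Real.log ((N : ℝ) / (A.card : ℝ)) := ⟨_, rfl⟩
  rw [← hl] at hl2
  have hl0 : 0 < l := by linarith
  obtain ⟨k1, hk1⟩ : ∃ k1 : ℕ, k1 = ⌈2 * l⌉₊ := ⟨_, rfl⟩
  have hk1a : 2 * l ≤ k1 := by rw [hk1]; exact Nat.le_ceil _
  have hk1b : (k1 : ℝ) < 2 * l + 1 := by rw [hk1]; exact Nat.ceil_lt_add_one (by linarith)
  have hk1c : (k1 : ℝ) ≤ 4 * l := by linarith
  have hk10 : 0 < k1 := by
    have : (0 : ℝ) < k1 := by linarith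
    exact_mod_cast this
  have hk11 : (1 : ℝ) ≤ k1 := by exact_mod_cast hk10
  have hlk1 : l ≤ k1 := by linarith
  obtain ⟨u, hu⟩ : ∃ u : ℝ, u = Real.log ((k1 : ℝ) + 1) / Real.log 2 := ⟨_, rfl⟩
  have hΛ2 : Real.log 2 ≤ Real.log ((k1 : ℝ) + 1) := Real.log_le_log (by norm_num) (by linarith)
  have hu1 : 1 ≤ u := by rw [hu, le_div_iff₀ hlog0]; linarith
  have hΛu : Real.log ((k1 : ℝ) + 1) = u * Real.log 2 := by rw [hu]; field_simp
  have hlogk1 : Real.log k1 ≤ u := by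
    have h1 : Real.log (k1 : ℝ) ≤ Real.log ((k1 : ℝ) + 1) := Real.log_le_log (by linarith) (by linarith)
    rw [hΛu] at h1
    have h2 : u * Real.log 2 ≤ u * 1 := mul_le_mul_of_nonneg_left (by linarith) (by linarith)
    linarith
  -- the scale
  obtain ⟨L0, hL0⟩ : ∃ L0 : ℕ, L0 = ⌈b * l⌉₊ := ⟨_, rfl⟩
  have hL0a : b * l ≤ L0 := by rw [hL0]; exact Nat.le_ceil _
  have hL0b : (L0 : ℝ) < b * l + 1 := by rw [hL0]; exact Nat.ceil_lt_add_one (by positivity)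
  have hL02 : 2 ≤ L0 := by
    have h1 : (2 : ℝ) ≤ L0 := by
      have h2 : 400 * l ≤ b * l := mul_le_mul_of_nonneg_right hb400 hl0.le
      linarith
    exact_mod_cast h1
  have hL0pos : (0 : ℝ) < L0 := by
    have : 0 < L0 := by omega
    exact_mod_cast this
  have hL0c : (L0 : ℝ) ≤ (b + 1) * k1 := by
    have h1 : b * l ≤ b * k1 := mul_le_mul_of_nonneg_left hlk1 (by linarith)
    have h2 : (b + 1) * (k1 : ℝ) = b * k1 + k1 := by ring
    linarith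
  obtain ⟨k, hk𝒦, hkL, hkU⟩ := h𝒦 L0 hL02
  have hk2 : (2 : ℝ) ≤ k := by exact_mod_cast hL02.trans hkL
  have hkpos : (0 : ℝ) < k := by linarith
  have hkl : 400 * l / δ ≤ k := by
    have h1 : 400 * l / δ = b * l := by rw [hb]; ring
    rw [h1]
    exact hL0a.trans (by exact_mod_cast hkL)
  have hlogk : Real.log k ≤ D * (Real.log (b + 1) + 1) * u := by
    have h1 : (k : ℝ) ≤ (L0 : ℝ) ^ D := by exact_mod_cast hkU
    have h2 := Real.log_le_log hkpos h1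
    rw [Real.log_pow] at h2
    have h3 : Real.log L0 ≤ (Real.log (b + 1) + 1) * u := logaux hL0pos (by linarith) (by linarith) hL0c hlogk1 hu1
    calc Real.log k ≤ D * Real.log L0 := h2
      _ ≤ D * ((Real.log (b + 1) + 1) * u) :=
        mul_le_mul_of_nonneg_left h3 (Nat.cast_nonneg _)
      _ = _ := by ring
  obtain ⟨E, hE⟩ : ∃ E : ℕ, E = ⌈3 * k / (2 * c)⌉₊ + 1 := ⟨_, rfl⟩
  have hE0 : 0 < E := by omega
  have hE1 : (1 : ℝ) ≤ E := by exact_mod_cast hE0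
  have hEa : 3 * k / (2 * c) ≤ (E : ℝ) := by
    rw [hE]; push_cast
    have := Nat.le_ceil (3 * (k : ℝ) / (2 * c))
    linarith
  have hEb : (E : ℝ) ≤ (3 / (2 * c) + 2) * k := by
    have h1 := Nat.ceil_lt_add_one (show 0 ≤ 3 * (k : ℝ) / (2 * c) by positivity)
    have h2 : (3 / (2 * c) + 2) * (k : ℝ) = 3 * k / (2 * c) + 2 * k := by ring
    rw [h2, hE]
    push_cast
    linarith
  have hlogE : Real.log E ≤ e1 + Real.log k := by
    rw [he1, ← Real.log_mul (by positivity) hkpos.ne']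
    exact Real.log_le_log (by linarith) hEb
  obtain ⟨g, hg⟩ : ∃ g : ℝ, g = 60 * (C + 1) * l / δ := ⟨_, rfl⟩
  have hgg : g = g1 * l := by rw [hg, hg1]; ring
  have hgk : g ≤ g1 * k1 := by rw [hgg]; exact mul_le_mul_of_nonneg_left hlk1 hg10.le
  have hg0 : 0 ≤ g := by rw [hgg]; positivity
  obtain ⟨W, hW⟩ : ∃ W : ℝ, W = E * (2 ^ 203 * (2 * (1 + (1 + g))) ^ 16) := ⟨_, rfl⟩
  have hV1 : (1 : ℝ) ≤ (2 * (1 + (1 + g))) ^ 16 := one_le_pow₀ (by linarith)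
  have hV2 : (1 : ℝ) ≤ 2 ^ 203 * (2 * (1 + (1 + g))) ^ 16 := by
    have h1 : (1 : ℝ) ≤ 2 ^ 203 := by norm_num
    exact one_le_mul_of_one_le_of_one_le h1 hV1
  have hWE : (E : ℝ) ≤ W := by rw [hW]; exact le_mul_of_one_le_right (by linarith) hV2
  have hWV : (2 : ℝ) ^ 203 * (2 * (1 + (1 + g))) ^ 16 ≤ W := by
    rw [hW]; exact le_mul_of_one_le_left (by linarith) hE1
  have hWpos : 0 < W := by linarith
  have hlogW : Real.log W ≤ w * u := by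
    rw [hW, Real.log_mul (by linarith) (by linarith), Real.log_mul (by positivity) (by linarith), Real.log_pow,
      Real.log_pow]
    push_cast
    have h1 : Real.log (2 * (1 + (1 + g))) ≤ (Real.log (4 + 2 * g1) + 1) * u := by
      have h2 : 2 * (1 + (1 + g)) ≤ (4 + 2 * g1) * k1 := by
        have h3 : (4 + 2 * g1) * (k1 : ℝ) = 4 * k1 + 2 * (g1 * k1) := by ring
        linarith
      exact logaux (by linarith) (by linarith) (by linarith) h2 hlogk1 hu1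
    have h2 : 203 * Real.log 2 ≤ 203 * u := by linarith
    have h3 : e1 ≤ e1 * u := le_mul_of_one_le_right he10 hu1
    rw [hw]
    have h4 : (e1 + D * (Real.log (b + 1) + 1) + 203 + 16 * (Real.log (4 + 2 * g1) + 1)) * u =
      e1 * u + D * (Real.log (b + 1) + 1) * u + 203 * u + 16 * ((Real.log (4 + 2 * g1) + 1) * u) := by ring
    rw [h4]
    linarith
  have hlogWpos : 0 < Real.log W := by
    apply Real.log_pos
    have h1 : (2 : ℝ) * 1 ≤ 2 ^ 203 * (2 * (1 + (1 + g))) ^ 16 := by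
      have h2 : (2 : ℝ) ≤ 2 ^ 203 := by norm_num
      exact mul_le_mul h2 hV1 (by norm_num) (by positivity)
    linarith
  obtain ⟨T, hT⟩ : ∃ T : ℕ, T = ⌈Real.log W / Real.log 2⌉₊ := ⟨_, rfl⟩
  have hTa : Real.log W / Real.log 2 ≤ T := by rw [hT]; exact Nat.le_ceil _
  have hTb : (T : ℝ) < Real.log W / Real.log 2 + 1 := by
    rw [hT]; exact Nat.ceil_lt_add_one (by positivity)
  have hTpos : (0 : ℝ) < T := lt_of_lt_of_le (by positivity) hTa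
  have hT1 : 1 ≤ T := by
    have : 0 < T := by exact_mod_cast hTpos
    exact this
  have h2T : W ≤ 2 ^ T := by
    rw [← Real.log_le_log_iff hWpos (by positivity), Real.log_pow]
    rw [div_le_iff₀ hlog0] at hTa
    exact hTa
  have hTc : (T : ℝ) ≤ (2 * w + 1) * u := arith_T hw0 hu1 hlogW hTb
  obtain ⟨m₀, hm₀, hNm, H, d, a, L, hprop, hd, hsize, hsub⟩ := one_set δ hδ hδ1 C c hC hc 𝓜 k (h k hk𝒦) N hN A hAne
    l hl hl2 hkl E T hEa hE0 hT1 (hWE.trans h2T) g hg (hWV.trans h2T)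
  have hgood : ProgGood C' k1 m₀ (lift N m₀ A) := by
    obtain ⟨r1, r2⟩ := arith_final hg0 hg10 hw0 hz hY hC' hk11 hu hu1 hlogk1 hgk hTpos.le hTc hd
    exact ⟨H, d, a, L, hprop, r1, hsize.trans r2, hsub⟩
  obtain ⟨Γ', ε, hε, hΓ', hcε, hsub'⟩ := bohr_of_prog C' hC'0 k1 m₀ hk10 (by omega) _ hgood
  obtain ⟨Γ, hΓ, hsub2⟩ := transfer (N := N) (M := m₀) hNm A Γ' ε hsub'
  refine ⟨Γ, 2 / 3 * ε, by positivity, ?_, ?_, hsub2⟩
  · rw [← hl]
    have h1 : (Γ.card : ℝ) ≤ Γ'.card + 1 := by exact_mod_cast hΓ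
    have h2 : (180 * C' + 1) * k1 ≤ (180 * C' + 1) * (4 * l) := mul_le_mul_of_nonneg_left hk1c (by positivity)
    have h3 : ((180 * C' + 1) * 4 + 2) * l = (180 * C' + 1) * (4 * l) + 2 * l := by ring
    linarith
  · rw [← hl]
    have h1 : 1 / (8 * (C' + 3)) / (4 * l) ≤ 1 / (8 * (C' + 3)) / (k1 : ℝ) :=
      div_le_div_of_nonneg_left (by positivity) (by linarith) hk1c
    have h2 : 2 / 3 * (1 / (8 * (C' + 3))) / 4 / l = 2 / 3 * (1 / (8 * (C' + 3)) / (4 * l)) := by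
      field_simp
    rw [h2]
    linarith

/-- If there are no exceptions then there are few exceptions. -/
theorem fewAt_of_all {δ : ℝ} {𝓜 : Set ℕ} (h𝓜 : 𝓜.Infinite) {G : (k M : ℕ) → Finset (ZMod M) → Prop} (k : ℕ)
    (hk : 0 < k) (h : ∀ M : ℕ, 0 < M → ∀ B : Finset (ZMod M), M ≤ 2 ^ k * B.card → G k M B) : FewAt δ 𝓜 G k := by
  intro M₀
  obtain ⟨M, hM, hM0⟩ := h𝓜.exists_gt (M₀ + 1)
  refine ⟨M, hM, by omega, ?_⟩
  obtain ⟨q, hq⟩ : ∃ q : ℕ, q = 2 ^ k := ⟨_, rfl⟩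
  have hq2 : 2 ≤ q := by
    rw [hq]
    calc 2 = 2 ^ 1 := rfl
      _ ≤ 2 ^ k := Nat.pow_le_pow_right (by norm_num) hk
  have h0 : {B : Finset (ZMod M) | B.card = M / 2 ^ k + 1 ∧ ¬ G k M B} = ∅ := by
    rw [Set.eq_empty_iff_forall_notMem]
    rintro B ⟨h1, h2⟩
    refine h2 (h _ (by omega) B ?_)
    rw [← hq] at h1 ⊢
    rw [h1]
    exact (Nat.lt_mul_div_succ M (by omega)).le
  rw [h0, Set.ncard_empty, Nat.cast_zero, ← hq]
  apply Real.rpow_pos_of_pos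
  have h1 : 0 < M.choose (M / q + 1) := by
    apply Nat.choose_pos
    have h2 : M / q ≤ M / 2 := Nat.div_le_div_left hq2 (by norm_num)
    omega
  exact_mod_cast h1

theorem FewAt.imp {δ : ℝ} {𝓜 : Set ℕ} {G G' : (k M : ℕ) → Finset (ZMod M) → Prop} {k : ℕ}
    (h : ∀ M : ℕ, 0 < M → ∀ B, G k M B → G' k M B) (hG : FewAt δ 𝓜 G k) : FewAt δ 𝓜 G' k := by
  intro M₀
  obtain ⟨M, hM, hM0, hc⟩ := hG M₀
  refine ⟨M, hM, hM0, lt_of_le_of_lt ?_ hc⟩
  have : NeZero M := ⟨by omega⟩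
  have h1 : {B : Finset (ZMod M) | B.card = M / 2 ^ k + 1 ∧ ¬ G' k M B}.ncard ≤
      {B : Finset (ZMod M) | B.card = M / 2 ^ k + 1 ∧ ¬ G k M B}.ncard := by
    apply Set.ncard_le_ncard _ (Set.toFinite _)
    rintro B ⟨h1, h2⟩
    exact ⟨h1, fun h3 => h2 (h _ (by omega) B h3)⟩
  exact_mod_cast h1

/-- **Equivalent forms of Q1.** -/
theorem main' (𝓜 : Set ℕ) (h𝓜 : 𝓜.Infinite) (δ : ℝ) (hδ : 0 < δ) (hδ1 : δ ≤ 1) (𝒦 : Set ℕ) (D : ℕ)
    (h𝒦0 : ∀ k ∈ 𝒦, 0 < k) (h𝒦 : ∀ L : ℕ, 2 ≤ L → ∃ k ∈ 𝒦, L ≤ k ∧ k ≤ L ^ D) :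
    (Q1 ↔ ∃ C : ℝ, 0 < C ∧ ∃ c : ℝ, 0 < c ∧ ∀ k ∈ 𝒦, FewAt δ 𝓜 (BohrGood C c) k) ∧
    (Q1 ↔ ∃ C : ℝ, 0 < C ∧ ∀ k ∈ 𝒦, FewAt δ 𝓜 (ProgGood C) k) := by
  refine ⟨⟨fun h => ?_, fun ⟨C, hC, c, hc, h⟩ => q1_of_scales δ hδ hδ1 𝓜 𝒦 D h𝒦 C c hC hc h⟩,
    ⟨fun h => ?_, fun ⟨C, hC, h⟩ => q1_of_scales δ hδ hδ1 𝓜 𝒦 D h𝒦 (180 * C + 1) (1 / (8 * (C + 3)))
      (by positivity) (by positivity) fun k hk =>
        (h k hk).imp fun M hM B hB => bohr_of_prog C hC k M (h𝒦0 k hk) hM B hB⟩⟩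
  · obtain ⟨C, hC, c, hc, h⟩ := all_bohr h
    exact ⟨C, hC, c, hc, fun k hk => fewAt_of_all h𝓜 k (h𝒦0 k hk) fun M hM B hB => h k M (h𝒦0 k hk) hM B hB⟩
  · obtain ⟨C, hC, h⟩ := all_prog h
    exact ⟨C, hC, fun k hk => fewAt_of_all h𝓜 k (h𝒦0 k hk) fun M hM B hB => h k M (h𝒦0 k hk) hM B hB⟩

end Pool.Agent.Q215.BT
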