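import Pool.Agent.H112R2.Lattice
import Pool.Agent.H112R2.John

/-! A Bohr set is a convex coset progression: the theorem `lattice_repr` of `Pool/Agent/H112R2/Lattice.lean` with a
bound of the dimension (the proof is copied from there). -/

set_option autoImplicit false

namespace Pool.Agent.Q215.BT

open scoped ENNReal
open H112 (bohr LL ann LatE lv lv_apply bohr_mono lattice_gap lattice_lift lattice_norm_lt lrep_abs lrep_coe)

variable {G : Type*} [AddCommGroup G]

theorem lattice_repr' (S : Set (G →+ UnitAddCircle)) (hS : S.Finite) (hfin : (bohr S (1 / 6)).Finite)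
    {ρ : ℝ} (hρ0 : 0 ≤ ρ) (hρ : ρ ≤ 1 / 6) :
    ∃ (m : ℕ) (N : Seminorm ℝ (Fin m → ℝ)) (ψ : (Fin m → ℤ) →+ G),
      (∀ x, N x = 0 → x = 0) ∧
      (∀ c : Fin m → ℤ, N (fun i => (c i : ℝ)) < 1 / 2 → ∀ r : ℝ, 0 ≤ r →
        (ψ c ∈ bohr S r ↔ c ∈ LL N r)) ∧
      (∀ x ∈ bohr S ρ, ∃ c ∈ LL N ρ, x - ψ c ∈ ann S) ∧ m ≤ S.ncard := by
  classical
  set X : Set (LatE S) := lv S '' bohr S ρ with hX
  have hXfin : X.Finite := (hfin.subset (bohr_mono S hρ)).image _
  set V : Submodule ℝ (LatE S) := Submodule.span ℝ X with hV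
  have : FiniteDimensional ℝ V := FiniteDimensional.span_of_finite ℝ hXfin
  set L : Submodule ℤ (LatE S) := Submodule.span ℤ X with hL
  have hLV : ∀ l ∈ L, l ∈ V := fun l hl => by
    have : L ≤ V.restrictScalars ℤ := Submodule.span_le.mpr fun x hx => Submodule.subset_span hx
    exact this hl
  let L₀ : Submodule ℤ V := L.comap (V.subtype.restrictScalars ℤ)
  have hmem : ∀ v : V, v ∈ L₀ ↔ (v : LatE S) ∈ L := fun v => Iff.rfl
  obtain ⟨ε, hε, hgap⟩ := lattice_gap S hfin (bohr S ρ)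
  have : DiscreteTopology L₀ := by
    apply discreteTopology_of_isOpen_singleton_zero
    rw [Metric.isOpen_singleton_iff]
    refine ⟨ε, hε, fun y hy => ?_⟩
    have h1 : ‖((y : V) : LatE S)‖ < ε := by
      rw [dist_zero_right] at hy; exact hy
    have := hgap _ ((hmem y).mp y.2) h1
    ext1; ext1; exact this
  have : IsZLattice ℝ L₀ := ⟨by
    rw [eq_top_iff]
    rintro ⟨v, hv⟩ -
    induction hv using Submodule.span_induction with
    | mem x hx => exact Submodule.subset_span ((hmem _).mpr (Submodule.subset_span hx))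
    | zero => exact Submodule.zero_mem _
    | add a b ha hb iha ihb => exact Submodule.add_mem _ iha ihb
    | smul n a ha ih => exact Submodule.smul_mem _ n ih⟩
  have : Module.Finite ℤ L₀ := ZLattice.module_finite ℝ L₀
  have : Module.Free ℤ L₀ := ZLattice.module_free ℝ L₀
  let m := Module.finrank ℤ L₀
  let b : Module.Basis (Fin m) ℤ L₀ := Module.finBasis ℤ L₀
  let B : Module.Basis (Fin m) ℝ V := b.ofZLatticeBasis ℝ L₀
  have hB : ∀ i, B i = (b i : V) := fun i => Module.Basis.ofZLatticeBasis_apply ℝ L₀ b i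
  have hlift : ∀ i, ∃ y : G, ∀ γ : S, γ.1 y = (((((b i : V) : LatE S) : ∀ _ : S, ℝ) γ : ℝ) : UnitAddCircle) :=
    fun i => lattice_lift S (bohr S ρ) _ ((hmem _).mp (b i).2)
  choose x hx using hlift
  let T : (Fin m → ℝ) →ₗ[ℝ] LatE S := V.subtype ∘ₗ (B.equivFun.symm : (Fin m → ℝ) →ₗ[ℝ] V)
  have hT : ∀ a, T a = ∑ i, a i • ((b i : V) : LatE S) := fun a => by
    simp only [T, LinearMap.comp_apply, LinearEquiv.coe_coe, Module.Basis.equivFun_symm_apply,
      map_sum, map_smul, hB]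
    rfl
  have hTinj : ∀ a, T a = 0 → a = 0 := fun a ha => by
    have h1 : (B.equivFun.symm a : V) = 0 := by
      apply Subtype.ext; exact ha
    have h2 := congrArg B.equivFun h1
    rw [LinearEquiv.apply_symm_apply, map_zero] at h2
    exact h2
  let ψ : (Fin m → ℤ) →+ G :=
    AddMonoidHom.mk' (fun c => ∑ i, c i • x i) (fun c d => by
      simp [add_smul, Finset.sum_add_distrib])
  have hψ : ∀ c, ψ c = ∑ i, c i • x i := fun c => rfl
  let N : Seminorm ℝ (Fin m → ℝ) := (normSeminorm ℝ (LatE S)).comp T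
  have hN : ∀ a, N a = ‖T a‖ := fun a => rfl
  have hkey : ∀ (c : Fin m → ℤ) (γ : S), γ.1 (ψ c) =
      (((T (fun i => (c i : ℝ)) : ∀ _ : S, ℝ) γ : ℝ) : UnitAddCircle) := fun c γ => by
    rw [hψ, map_sum, hT]
    have h1 : ((∑ i, (c i : ℝ) • ((b i : V) : LatE S) : LatE S) : ∀ _ : S, ℝ) γ =
        ∑ i, (c i : ℝ) * (((b i : V) : LatE S) : ∀ _ : S, ℝ) γ := by
      rw [lp.coeFn_sum, Finset.sum_apply]
      rfl
    rw [h1]
    have h2 : ∀ t : Fin m → ℝ, ((∑ i, t i : ℝ) : UnitAddCircle) = ∑ i, ((t i : ℝ) : UnitAddCircle) :=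
      fun t => map_sum (QuotientAddGroup.mk' (AddSubgroup.zmultiples (1 : ℝ))) t Finset.univ
    rw [h2]
    refine Finset.sum_congr rfl fun i _ => ?_
    rw [map_zsmul, hx, ← zsmul_eq_mul]
    rfl
  have hrepr : ∀ y ∈ bohr S ρ, ∃ c : Fin m → ℤ, T (fun i => (c i : ℝ)) = lv S y := fun y hy => by
    have hyL : lv S y ∈ L := Submodule.subset_span ⟨y, hy, rfl⟩
    let z : L₀ := ⟨⟨lv S y, hLV _ hyL⟩, hyL⟩
    refine ⟨fun i => b.repr z i, ?_⟩
    rw [hT]
    have h1 : ∑ i, b.repr z i • b i = z := b.sum_repr z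
    have h2 : (((∑ i, b.repr z i • b i : L₀) : V) : LatE S) = ((z : V) : LatE S) := by rw [h1]
    have h3 : ((z : V) : LatE S) = lv S y := rfl
    rw [h3] at h2
    rw [← h2]
    have h4 : (((∑ i, b.repr z i • b i : L₀) : V) : LatE S) =
        ∑ i, (((b.repr z i • b i : L₀) : V) : LatE S) := by
      rw [Submodule.coe_sum, Submodule.coe_sum]
    rw [h4]
    refine Finset.sum_congr rfl fun i _ => ?_
    have h5 : (((b.repr z i • b i : L₀) : V) : LatE S) = b.repr z i • ((b i : V) : LatE S) := rfl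
    rw [h5]
    exact Int.cast_smul_eq_zsmul ℝ _ _
  have hnl : ∀ y ∈ bohr S ρ, ‖lv S y‖ ≤ ρ := fun y hy =>
    lp.norm_le_of_forall_le hρ0 fun γ => by
      rw [lv_apply, Real.norm_eq_abs, lrep_abs]; exact hy _ γ.2
  refine ⟨m, N, ψ, ?_, ?_, ?_, ?_⟩
  · intro a ha
    rw [hN, norm_eq_zero] at ha
    exact hTinj a ha
  · intro c hc r hr
    rw [hN] at hc
    have h1 : ∀ γ : S, ‖γ.1 (ψ c)‖ = |(T (fun i => (c i : ℝ)) : ∀ _ : S, ℝ) γ| := fun γ => by
      rw [hkey]
      apply lattice_norm_lt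
      have h0 : ‖(T (fun i => (c i : ℝ)) : ∀ _ : S, ℝ) γ‖ ≤ ‖T (fun i => (c i : ℝ))‖ :=
        lp.norm_apply_le_norm ENNReal.top_ne_zero (T (fun i => (c i : ℝ))) γ
      rw [Real.norm_eq_abs] at h0
      exact lt_of_le_of_lt h0 hc
    constructor
    · intro h
      change N _ ≤ r
      rw [hN]
      exact lp.norm_le_of_forall_le hr fun γ => by
        rw [Real.norm_eq_abs, ← h1]; exact h _ γ.2
    · intro h γ hγ
      have h2 := h1 ⟨γ, hγ⟩
      simp only at h2
      rw [h2]
      have h3 : ‖T (fun i => (c i : ℝ))‖ ≤ r := h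
      exact (lp.norm_apply_le_norm ENNReal.top_ne_zero _ _).trans h3
  · intro y hy
    obtain ⟨c, hc⟩ := hrepr y hy
    refine ⟨c, ?_, ?_⟩
    · change N _ ≤ ρ
      rw [hN, hc]; exact hnl y hy
    · intro γ hγ
      have h1 := hkey c ⟨γ, hγ⟩
      simp only at h1
      rw [map_sub, h1, hc, lv_apply, lrep_coe, sub_self]
  · have : Fintype S := hS.fintype
    let T' : (Fin m → ℝ) →ₗ[ℝ] (S → ℝ) :=
      { toFun := fun a γ => (T a : ∀ _ : S, ℝ) γ
        map_add' := fun a b => by
          funext γ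
          rw [map_add]
          rfl
        map_smul' := fun t a => by
          funext γ
          rw [map_smul]
          rfl }
    have hT' : Function.Injective T' := by
      intro a b hab
      have h1 : T a = T b := by
        ext γ
        exact congrFun hab γ
      have h2 : T (a - b) = 0 := by rw [map_sub, h1, sub_self]
      exact sub_eq_zero.1 (hTinj _ h2)
    have h3 := LinearMap.finrank_le_finrank_of_injective hT'
    rw [Module.finrank_fin_fun, Module.finrank_fintype_fun_eq_card] at h3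
    rw [Set.ncard_eq_toFinset_card', Set.toFinset_card]
    exact h3

end Pool.Agent.Q215.BT
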