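import Pool.Agent.Q215.BT.Tens

/-! Products of sets in cyclic groups of coprime orders. -/

set_option autoImplicit false

namespace Pool.Agent.Q215.BT

open Finset Function

/-- The projection to a factor. -/
def pr {n : ℕ} (m : Fin n → ℕ) (i : Fin n) : ZMod (∏ i, m i) →+ ZMod (m i) :=
  (ZMod.castHom (Finset.dvd_prod_of_mem m (mem_univ i)) (ZMod (m i))).toAddMonoidHom

theorem pr_eq {n : ℕ} (m : Fin n → ℕ) (hcop : Pairwise (Nat.Coprime on m)) (i : Fin n) (x : ZMod (∏ i, m i)) :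
    pr m i x = ZMod.prodEquivPi m hcop x i := (ZMod.prodEquivPi_apply m hcop x i).symm

/-- One of the projections of a set is large. -/
theorem product_factor {n : ℕ} (hn : 0 < n) (m : Fin n → ℕ) (hm : ∀ i, 0 < m i)
    (hcop : Pairwise (Nat.Coprime on m)) (B : Set (ZMod (∏ i, m i))) (hBfin : B.Finite) (hB : B.Nonempty) :
    ∃ i, (n : ℝ) * Real.log ((m i : ℝ) / ((pr m i '' B).ncard : ℝ)) ≤
      Real.log (((∏ i, m i : ℕ) : ℝ) / (B.ncard : ℝ)) := by
  classical
  have hinst : ∀ i, NeZero (m i) := fun i => ⟨(hm i).ne'⟩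
  obtain ⟨BF, hBF⟩ : ∃ BF : Finset (ZMod (∏ i, m i)), BF = hBfin.toFinset := ⟨_, rfl⟩
  have hBFm : ∀ x, x ∈ BF ↔ x ∈ B := fun x => by rw [hBF, Set.Finite.mem_toFinset]
  have hBFc : B.ncard = BF.card := by rw [hBF, Set.ncard_eq_toFinset_card _ hBfin]
  have hBFne : BF.Nonempty := by
    obtain ⟨x, hx⟩ := hB
    exact ⟨x, (hBFm x).2 hx⟩
  have hQ : ∀ i, (pr m i '' B).ncard = (BF.image (pr m i)).card := by
    intro i
    rw [← Set.ncard_coe_finset, coe_image]
    congr 2
    ext x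
    exact (hBFm x).symm
  have hQne : ∀ i, 0 < (BF.image (pr m i)).card := fun i => (hBFne.image _).card_pos
  have hcard : BF.card ≤ ∏ i, (BF.image (pr m i)).card := by
    rw [← Fintype.card_piFinset]
    apply card_le_card_of_injOn (fun x => ZMod.prodEquivPi m hcop x)
    · intro x hx
      rw [mem_coe, Fintype.mem_piFinset]
      intro i
      show ZMod.prodEquivPi m hcop x i ∈ BF.image (pr m i)
      rw [← pr_eq]
      exact mem_image_of_mem _ hx
    · exact (ZMod.prodEquivPi m hcop).injective.injOn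
  have hBpos : (0 : ℝ) < BF.card := by exact_mod_cast hBFne.card_pos
  have hPpos : (0 : ℝ) < ((∏ i, m i : ℕ) : ℝ) := by
    exact_mod_cast Finset.prod_pos fun i _ => hm i
  have hsum : ∑ i, Real.log ((m i : ℝ) / ((pr m i '' B).ncard : ℝ)) ≤
      Real.log (((∏ i, m i : ℕ) : ℝ) / (B.ncard : ℝ)) := by
    have h1 : ∀ i, Real.log ((m i : ℝ) / ((pr m i '' B).ncard : ℝ)) =
        Real.log (m i) - Real.log ((BF.image (pr m i)).card : ℝ) := by
      intro i
      rw [hQ i, Real.log_div]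
      · exact_mod_cast (hm i).ne'
      · exact_mod_cast (hQne i).ne'
    rw [sum_congr rfl fun i _ => h1 i, sum_sub_distrib, hBFc, Real.log_div hPpos.ne' hBpos.ne']
    have h2 : Real.log ((∏ i, m i : ℕ) : ℝ) = ∑ i, Real.log (m i) := by
      push_cast
      rw [Real.log_prod]
      intro i _
      exact_mod_cast (hm i).ne'
    have h3 : Real.log (BF.card : ℝ) ≤ ∑ i, Real.log ((BF.image (pr m i)).card : ℝ) := by
      rw [← Real.log_prod]
      · apply Real.log_le_log hBpos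
        exact_mod_cast hcard
      · intro i _
        exact_mod_cast (hQne i).ne'
    rw [h2]
    linarith
  have hnpos : (0 : ℝ) < n := by exact_mod_cast hn
  obtain ⟨R, hR⟩ : ∃ R : ℝ, R = Real.log (((∏ i, m i : ℕ) : ℝ) / (B.ncard : ℝ)) := ⟨_, rfl⟩
  rw [← hR] at hsum ⊢
  by_contra hcon
  push Not at hcon
  have : Nonempty (Fin n) := ⟨⟨0, hn⟩⟩
  have h1 : ∑ _i : Fin n, R / n < ∑ i, Real.log ((m i : ℝ) / ((pr m i '' B).ncard : ℝ)) := by
    apply sum_lt_sum_of_nonempty univ_nonempty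
    intro i _
    rw [div_lt_iff₀ hnpos, mul_comm]
    exact hcon i
  rw [sum_const, card_univ, Fintype.card_fin, nsmul_eq_mul, mul_div_cancel₀ _ hnpos.ne'] at h1
  linarith

/-- The product set. -/
theorem exists_prodSet {n : ℕ} (m : Fin n → ℕ) (hm : ∀ i, 0 < m i) (hcop : Pairwise (Nat.Coprime on m))
    (A : ∀ i, Finset (ZMod (m i))) : ∃ P : Finset (ZMod (∏ i, m i)), P.card = ∏ i, (A i).card ∧
      ∀ x ∈ P, ∀ i, pr m i x ∈ A i := by
  classical
  have hinst : ∀ i, NeZero (m i) := fun i => ⟨(hm i).ne'⟩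
  refine ⟨(Fintype.piFinset A).image (ZMod.prodEquivPi m hcop).symm, ?_, ?_⟩
  · rw [card_image_of_injective _ (ZMod.prodEquivPi m hcop).symm.injective, Fintype.card_piFinset]
  · intro x hx i
    rw [mem_image] at hx
    obtain ⟨y, hy, rfl⟩ := hx
    rw [pr_eq m hcop, RingEquiv.apply_symm_apply]
    exact (Fintype.mem_piFinset.1 hy) i

/-- Projections of `2P - 2P`. -/
theorem pr_two {n : ℕ} (m : Fin n → ℕ) (A : ∀ i, Finset (ZMod (m i))) (P : Finset (ZMod (∏ i, m i)))
    (hP : ∀ x ∈ P, ∀ i, pr m i x ∈ A i) (i : Fin n) : pr m i '' twoAMinusTwoA P ⊆ twoAMinusTwoA (A i) := by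
  rintro _ ⟨x, ⟨a, ha, b, hb, c, hc, d, hd, rfl⟩, rfl⟩
  refine ⟨_, hP a ha i, _, hP b hb i, _, hP c hc i, _, hP d hd i, ?_⟩
  rw [map_sub, map_sub, map_add]

/-- Many large coprime moduli. -/
theorem exists_moduli (n N : ℕ) : ∃ m : Fin n → ℕ, (∀ i, N ≤ m i) ∧ (∀ i, 0 < m i) ∧
    Pairwise (Nat.Coprime on m) := by
  refine ⟨fun i => Nat.nth Nat.Prime (N + i), fun i => ?_, fun i => (Nat.prime_nth_prime _).pos, ?_⟩
  · have := Nat.add_two_le_nth_prime (N + i)
    show N ≤ Nat.nth Nat.Prime (N + i)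
    omega
  · intro i j hij
    show Nat.Coprime (Nat.nth Nat.Prime (N + i)) (Nat.nth Nat.Prime (N + j))
    rw [Nat.coprime_primes (Nat.prime_nth_prime _) (Nat.prime_nth_prime _)]
    intro h
    have h1 := (Nat.nth_injective Nat.infinite_setOfPred_prime) h
    apply hij
    ext
    omega

end Pool.Agent.Q215.BT
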