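import Pool.Agent.Q215.BT.Few
import Pool.Agent.Q215.BT.Lat
import Pool.Agent.H112R2.Gap
import Pool.Agent.TH858.GP.Coset

/-! Bohr sets and proper coset progressions. -/

set_option autoImplicit false

namespace Pool.Agent.Q215.BT

open Finset Pool.Agent.TH858

/-- The coset progression `H + {n_1 a_1 + … + n_d a_d : |n_i| ≤ L_i}`. -/
def cosetProg {N d : ℕ} (H : AddSubgroup (ZMod N)) (a : Fin d → ZMod N) (L : Fin d → ℕ) : Set (ZMod N) :=
  {x | ∃ h ∈ H, ∃ n : Fin d → ℤ, (∀ i, |n i| ≤ L i) ∧ x = h + ∑ i, (n i : ZMod N) * a i}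

/-- The coset progression is proper: different coefficients give different cosets of `H`. -/
def Proper {N d : ℕ} (H : AddSubgroup (ZMod N)) (a : Fin d → ZMod N) (L : Fin d → ℕ) : Prop :=
  ∀ n n' : Fin d → ℤ, (∀ i, |n i| ≤ L i) → (∀ i, |n' i| ≤ L i) →
    (∑ i, (n i : ZMod N) * a i) - (∑ i, (n' i : ZMod N) * a i) ∈ H → n = n'

/-- The number of elements of a proper coset progression. -/
theorem card_cosetProg {N : ℕ} (hN : 0 < N) {d : ℕ} (H : AddSubgroup (ZMod N)) (a : Fin d → ZMod N) (L : Fin d → ℕ)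
    (hprop : Proper H a L) : (cosetProg H a L).ncard = Nat.card H * (GP.box L).card := by
  have : NeZero N := ⟨hN.ne'⟩
  have h1 : cosetProg H a L = (fun p : ZMod N × (Fin d → ℤ) => p.1 + ∑ i, (p.2 i : ZMod N) * a i) ''
      ((H : Set (ZMod N)) ×ˢ (GP.box L : Set (Fin d → ℤ))) := by
    ext x
    constructor
    · rintro ⟨h, hh, n, hn, rfl⟩
      refine ⟨(h, n), ⟨hh, ?_⟩, rfl⟩
      rw [Finset.mem_coe, GP.mem_box]
      exact hn
    · rintro ⟨⟨h, n⟩, ⟨hh, hn⟩, rfl⟩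
      rw [Finset.mem_coe, GP.mem_box] at hn
      exact ⟨h, hh, n, hn, rfl⟩
  have h2 : Set.InjOn (fun p : ZMod N × (Fin d → ℤ) => p.1 + ∑ i, (p.2 i : ZMod N) * a i)
      ((H : Set (ZMod N)) ×ˢ (GP.box L : Set (Fin d → ℤ))) := by
    rintro ⟨h, n⟩ ⟨hh, hn⟩ ⟨h', n'⟩ ⟨hh', hn'⟩ heq
    rw [Finset.mem_coe, GP.mem_box] at hn hn'
    have heq' : h + ∑ i, (n i : ZMod N) * a i = h' + ∑ i, (n' i : ZMod N) * a i := heq
    have h3 : n = n' := by
      refine hprop n n' hn hn' ?_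
      have h4 : (∑ i, (n i : ZMod N) * a i) - (∑ i, (n' i : ZMod N) * a i) = h' - h := by
        rw [sub_eq_sub_iff_add_eq_add, add_comm, heq']
      rw [h4]
      exact H.sub_mem hh' hh
    subst h3
    have h5 := add_right_cancel heq'
    rw [h5]
  rw [h1, h2.ncard_image, Set.ncard_prod, Set.ncard_coe_finset]
  rfl

/-- The size of a Bohr set. -/
theorem bohr_size_ge {N : ℕ} [NeZero N] (Γ : Finset (ZMod N)) (K : ℕ) (hK : 0 < K) :
    N ≤ K ^ Γ.card * (bohr Γ (1 / (K : ℝ))).ncard := by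
  classical
  have hN := NeZero.pos N
  have hNpos : (0 : ℝ) < N := by exact_mod_cast hN
  have hKpos : (0 : ℝ) < K := by exact_mod_cast hK
  let f : ZMod N → (Γ → Fin K) := fun x γ => ⟨K * (γ.1 * x).val / N, by
    rw [Nat.div_lt_iff_lt_mul hN]
    exact Nat.mul_lt_mul_of_pos_left (ZMod.val_lt _) hK⟩
  have h1 := card_eq_sum_card_fiberwise (s := (univ : Finset (ZMod N))) (t := (univ : Finset (Γ → Fin K)))
    (f := f) (fun x _ => by simp)
  rw [card_univ, ZMod.card] at h1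
  have h2 : ∀ y ∈ (univ : Finset (Γ → Fin K)),
      (univ.filter fun x : ZMod N => f x = y).card ≤ (bohr Γ (1 / (K : ℝ))).ncard := by
    intro y _
    rcases (univ.filter fun x : ZMod N => f x = y).eq_empty_or_nonempty with h0 | ⟨x₀, hx₀⟩
    · rw [h0, card_empty]; exact Nat.zero_le _
    · rw [mem_filter] at hx₀
      rw [← Set.ncard_coe_finset]
      refine Set.ncard_le_ncard_of_injOn (fun x => x - x₀) ?_ (sub_left_injective.injOn) (Set.toFinite _)
      intro x hx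
      rw [mem_coe, mem_filter] at hx
      rw [mem_bohr]
      intro γ hγ
      have h3 : f x = f x₀ := by rw [hx.2, hx₀.2]
      have h4 : K * (γ * x).val / N = K * (γ * x₀).val / N := by
        have := congrArg Fin.val (congrFun h3 ⟨γ, hγ⟩)
        exact this
      rw [mul_sub, map_sub, ZMod.toAddCircle_apply, ZMod.toAddCircle_apply, ← AddCircle.coe_sub]
      obtain ⟨u, hu⟩ : ∃ u : ℕ, u = (γ * x).val := ⟨_, rfl⟩
      obtain ⟨w, hw⟩ : ∃ w : ℕ, w = (γ * x₀).val := ⟨_, rfl⟩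
      rw [← hu, ← hw] at h4 ⊢
      obtain ⟨q, hq⟩ : ∃ q : ℕ, q = K * u / N := ⟨_, rfl⟩
      have hu1 : q * N ≤ K * u := by rw [hq]; exact Nat.div_mul_le_self _ _
      have hu2 : K * u < (q + 1) * N := by
        rw [hq, mul_comm (K * u / N + 1)]; exact Nat.lt_mul_div_succ _ hN
      have hw1 : q * N ≤ K * w := by rw [hq, h4]; exact Nat.div_mul_le_self _ _
      have hw2 : K * w < (q + 1) * N := by
        rw [hq, h4, mul_comm (K * w / N + 1)]; exact Nat.lt_mul_div_succ _ hN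
      have hu1' : (q : ℝ) * N ≤ K * u := by exact_mod_cast hu1
      have hu2' : (K : ℝ) * u < (q + 1) * N := by exact_mod_cast hu2
      have hw1' : (q : ℝ) * N ≤ K * w := by exact_mod_cast hw1
      have hw2' : (K : ℝ) * w < (q + 1) * N := by exact_mod_cast hw2
      have h5 : ‖((((u : ℝ) / N - (w : ℝ) / N : ℝ)) : UnitAddCircle)‖ ≤ |(u : ℝ) / N - (w : ℝ) / N| := by
        rw [UnitAddCircle.norm_eq]
        have := round_le ((u : ℝ) / N - (w : ℝ) / N) 0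
        simpa using this
      refine h5.trans ?_
      rw [← sub_div, abs_div, abs_of_pos hNpos, div_le_div_iff₀ hNpos hKpos, one_mul]
      have h6 : |(u : ℝ) - w| * K = |(K : ℝ) * u - K * w| := by
        rw [← mul_sub, abs_mul, abs_of_pos hKpos, mul_comm]
      rw [h6, abs_le]
      constructor <;> linarith
  have h3 := sum_le_card_nsmul _ _ _ h2
  rw [← h1, card_univ, Fintype.card_fun, Fintype.card_fin, Fintype.card_coe, smul_eq_mul] at h3
  exact h3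

/-- The character with the frequency `γ`. -/
noncomputable def chi {N : ℕ} [NeZero N] (γ : ZMod N) : ZMod N →+ UnitAddCircle :=
  (ZMod.toAddCircle (N := N)).comp (AddMonoidHom.mulLeft γ)

theorem chi_apply {N : ℕ} [NeZero N] (γ x : ZMod N) : chi γ x = ZMod.toAddCircle (γ * x) := rfl

theorem mem_hbohr {N : ℕ} [NeZero N] (Γ : Finset (ZMod N)) (ε : ℝ) (x : ZMod N) :
    x ∈ H112.bohr (chi '' (Γ : Set (ZMod N))) ε ↔ x ∈ bohr Γ ε := by
  rw [mem_bohr]
  constructor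
  · intro h γ hγ
    exact h _ ⟨γ, hγ, rfl⟩
  · rintro h _ ⟨γ, hγ, rfl⟩
    exact h γ hγ

/-- A Bohr set contains a large proper coset progression. -/
theorem bohr_prog {M : ℕ} [NeZero M] (Γ : Finset (ZMod M)) (ε : ℝ) (hε : 0 < ε) (hε6 : ε ≤ 1 / 6) :
    ∃ (H : AddSubgroup (ZMod M)) (d : ℕ) (a : Fin d → ZMod M) (L : Fin d → ℕ), Proper H a L ∧ d ≤ Γ.card ∧
      (bohr Γ ε).ncard ≤ (4 * d ^ 3) ^ d * (cosetProg H a L).ncard ∧ cosetProg H a L ⊆ bohr Γ ε := by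
  classical
  obtain ⟨S, hS⟩ : ∃ S : Set (ZMod M →+ UnitAddCircle), S = chi '' (Γ : Set (ZMod M)) := ⟨_, rfl⟩
  have hSfin : S.Finite := by rw [hS]; exact (Γ.finite_toSet).image _
  have hScard : S.ncard ≤ Γ.card := by
    rw [hS, ← Set.ncard_coe_finset Γ]
    exact Set.ncard_image_le (Γ.finite_toSet)
  have hbohr : ∀ r x, x ∈ H112.bohr S r ↔ x ∈ bohr Γ r := fun r x => by rw [hS]; exact mem_hbohr Γ r x
  have hfin : (H112.bohr S (1 / 6)).Finite := Set.toFinite _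
  obtain ⟨m, Nn, ψ, hN, h1, h2, hm⟩ := lattice_repr' S hSfin hfin hε.le hε6
  have hLLfin : (H112.LL Nn ε).Finite :=
    (H112.gap_finite S hfin Nn ψ hN h1).subset (H112.gap_LL_mono Nn hε6)
  obtain ⟨k, v, L, hkm, hli, hbox, hcard⟩ := H112.discrete_john Nn hε.le hLLfin
  have hψ : ∀ n : Fin k → ℤ, ∑ i, (n i : ZMod M) * ψ (v i) = ψ (∑ i, n i • v i) := by
    intro n
    rw [map_sum]
    refine sum_congr rfl fun i _ => ?_
    rw [map_zsmul, zsmul_eq_mul]
  have hprop : Proper (H112.ann S) (fun i => ψ (v i)) L := by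
    intro n n' hn hn' hmem
    rw [hψ, hψ, ← map_sub] at hmem
    have g1 := H112.gap_LL_sub Nn (hbox n hn) (hbox n' hn')
    have g2 : Nn (fun i => (((∑ i, n i • v i) - (∑ i, n' i • v i)) i : ℝ)) < 1 / 2 :=
      lt_of_le_of_lt g1 (by linarith)
    have g3 : ψ ((∑ i, n i • v i) - (∑ i, n' i • v i)) ∈ H112.bohr S 0 := by
      intro γ hγ
      rw [hmem γ hγ, norm_zero]
    have g4 := (h1 _ g2 0 le_rfl).1 g3
    have g5 := H112.gap_LL_eq_zero Nn hN g4
    have g6 : ∑ i, (n i - n' i) • v i = 0 := by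
      rw [← g5, ← sum_sub_distrib]
      exact sum_congr rfl fun i _ => sub_smul _ _ _
    have g7 := (Fintype.linearIndependent_iff.1 hli) _ g6
    funext i
    exact sub_eq_zero.1 (g7 i)
  refine ⟨H112.ann S, k, fun i => ψ (v i), L, hprop, hkm.trans (hm.trans hScard), ?_, ?_⟩
  · have hM := NeZero.pos M
    rw [card_cosetProg hM _ _ _ hprop, GP.card_box]
    have hsub : bohr Γ ε ⊆ (fun p : (Fin m → ℤ) × ZMod M => ψ p.1 + p.2) ''
        ((H112.LL Nn ε) ×ˢ (H112.ann S : Set (ZMod M))) := by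
      intro x hx
      obtain ⟨c, hc, hxc⟩ := h2 x ((hbohr ε x).2 hx)
      exact ⟨(c, x - ψ c), ⟨hc, hxc⟩, by simp⟩
    have hfin2 : ((H112.LL Nn ε) ×ˢ (H112.ann S : Set (ZMod M))).Finite := hLLfin.prod (Set.toFinite _)
    have g1 := Set.ncard_le_ncard hsub (hfin2.image _)
    have g2 := Set.ncard_image_le (f := fun p : (Fin m → ℤ) × ZMod M => ψ p.1 + p.2) hfin2
    rw [Set.ncard_prod] at g2
    have g3 : (H112.ann S : Set (ZMod M)).ncard = Nat.card (H112.ann S) := rfl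
    rw [g3] at g2
    calc (bohr Γ ε).ncard ≤ (H112.LL Nn ε).ncard * Nat.card (H112.ann S) := g1.trans g2
      _ ≤ ((4 * k ^ 3) ^ k * ∏ i, (2 * L i + 1)) * Nat.card (H112.ann S) := Nat.mul_le_mul_right _ hcard
      _ = (4 * k ^ 3) ^ k * (Nat.card (H112.ann S) * ∏ i, (2 * L i + 1)) := by ring
  · rintro x ⟨h, hh, n, hn, rfl⟩
    rw [← hbohr, hψ]
    have g1 : ψ (∑ i, n i • v i) ∈ H112.bohr S ε := by
      have g2 := hbox n hn
      refine (h1 _ (lt_of_le_of_lt g2 (by linarith)) ε hε.le).2 g2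
    intro γ hγ
    rw [map_add, hh γ hγ, zero_add]
    exact g1 γ hγ

/-- `2B - 2B` contains a large proper coset progression of small dimension. -/
def ProgGood (C : ℝ) (k M : ℕ) (B : Finset (ZMod M)) : Prop :=
  ∃ (H : AddSubgroup (ZMod M)) (d : ℕ) (a : Fin d → ZMod M) (L : Fin d → ℕ), Proper H a L ∧ (d : ℝ) ≤ C * k ∧
    Real.log ((M : ℝ) / ((cosetProg H a L).ncard : ℝ)) ≤ C * k * Real.log (k + 1) ∧
    cosetProg H a L ⊆ twoAMinusTwoA B

theorem prog_of_bohr (C c : ℝ) (hC : 0 < C) (hc : 0 < c) : ∃ C' : ℝ, 0 < C' ∧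
    ∀ (k M : ℕ) (_ : 0 < k) (_ : 0 < M) (B : Finset (ZMod M)), BohrGood C c k M B → ProgGood C' k M B := by
  have hlog := Real.log_two_gt_d9
  have hl0 : 0 < Real.log 2 := by linarith
  have ha1 : 0 ≤ Real.log (1 / c + 7) := Real.log_nonneg (by
    have : 0 < 1 / c := by positivity
    linarith)
  have ha2 : 0 ≤ Real.log (C + 1) := Real.log_nonneg (by linarith)
  obtain ⟨E, hE⟩ : ∃ E : ℝ, E = Real.log (1 / c + 7) / Real.log 2 + 6 + 3 * (Real.log (C + 1) / Real.log 2) :=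
    ⟨_, rfl⟩
  have hE1 : 1 ≤ E := by
    have h1 : 0 ≤ Real.log (1 / c + 7) / Real.log 2 := by positivity
    have h2 : 0 ≤ Real.log (C + 1) / Real.log 2 := by positivity
    linarith
  refine ⟨C * E, by positivity, ?_⟩
  rintro k M hk hM B ⟨Γ, ε, hε, hΓ, hcε, hsub⟩
  have : NeZero M := ⟨hM.ne'⟩
  have hkpos : (0 : ℝ) < k := by exact_mod_cast hk
  have hk1 : (1 : ℝ) ≤ k := by exact_mod_cast hk
  have hMpos : (0 : ℝ) < M := by exact_mod_cast hM
  obtain ⟨K, hK⟩ : ∃ K : ℕ, K = ⌈(k : ℝ) / c⌉₊ + 6 := ⟨_, rfl⟩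
  have hK6 : (6 : ℝ) ≤ K := by
    have : 6 ≤ K := by omega
    exact_mod_cast this
  have hKc : (k : ℝ) / c ≤ K := by
    rw [hK]; push_cast
    have := Nat.le_ceil ((k : ℝ) / c)
    linarith
  have hKup : (K : ℝ) ≤ (1 / c + 7) * k := by
    rw [hK]; push_cast
    have h1 := Nat.ceil_lt_add_one (show (0 : ℝ) ≤ (k : ℝ) / c by positivity)
    have h2 : (k : ℝ) / c = 1 / c * k := by ring
    rw [h2] at h1 ⊢
    nlinarith
  have hKpos : (0 : ℝ) < K := by linarith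
  have hK1 : 1 / (K : ℝ) ≤ ε := by
    refine le_trans ?_ hcε
    rw [div_le_div_iff₀ hKpos hkpos]
    rw [div_le_iff₀ hc] at hKc
    linarith
  obtain ⟨H, d, a, L, hprop, hd, hcard, hsub2⟩ := bohr_prog Γ (1 / (K : ℝ)) (by positivity) (by
    rw [div_le_div_iff₀ hKpos (by norm_num)]
    linarith)
  have hsize := bohr_size_ge Γ K (by exact_mod_cast hKpos)
  have hdC : (d : ℝ) ≤ C * k := le_trans (by exact_mod_cast hd) hΓ
  obtain ⟨p, hp⟩ : ∃ p : ℕ, p = (cosetProg H a L).ncard := ⟨_, rfl⟩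
  rw [← hp] at hcard
  have hM2 : M ≤ K ^ Γ.card * ((4 * d ^ 3) ^ d * p) := hsize.trans (Nat.mul_le_mul_left _ hcard)
  have hp0 : 0 < p := by
    rcases Nat.eq_zero_or_pos p with h0 | h0
    · rw [h0] at hM2; simp at hM2; omega
    · exact h0
  have hppos : (0 : ℝ) < p := by exact_mod_cast hp0
  have hd4 : 0 < (4 * d ^ 3) ^ d := by
    rcases Nat.eq_zero_or_pos ((4 * d ^ 3) ^ d) with h0 | h0
    · rw [h0] at hM2; simp at hM2; omega
    · exact h0
  refine ⟨H, d, a, L, hprop, ?_, ?_, ?_⟩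
  · calc (d : ℝ) ≤ C * k := hdC
      _ ≤ C * k * E := by
        have : 0 ≤ C * (k : ℝ) := by positivity
        nlinarith
      _ = C * E * k := by ring
  · rw [← hp]
    have hlk : Real.log 2 ≤ Real.log (k + 1) := Real.log_le_log (by norm_num) (by linarith)
    have hlk2 : Real.log k ≤ Real.log (k + 1) := Real.log_le_log hkpos (by linarith)
    have g1 : Real.log (M / p) ≤ Γ.card * Real.log K + d * Real.log (4 * (d : ℝ) ^ 3) := by
      have h1 : (M : ℝ) / p ≤ (K : ℝ) ^ Γ.card * (4 * (d : ℝ) ^ 3) ^ d := by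
        rw [div_le_iff₀ hppos]
        have : (M : ℝ) ≤ (K : ℝ) ^ Γ.card * ((4 * (d : ℝ) ^ 3) ^ d * p) := by exact_mod_cast hM2
        linarith
      have hd4' : (0 : ℝ) < (4 * (d : ℝ) ^ 3) ^ d := by exact_mod_cast hd4
      have h2 := Real.log_le_log (by positivity) h1
      rwa [Real.log_mul (by positivity) hd4'.ne', Real.log_pow, Real.log_pow] at h2
    have g2 : Real.log K ≤ Real.log (1 / c + 7) + Real.log k := by
      rw [← Real.log_mul (by positivity) hkpos.ne']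
      exact Real.log_le_log hKpos hKup
    have g3 : (d : ℝ) * Real.log (4 * (d : ℝ) ^ 3) ≤ (d : ℝ) * (2 * Real.log 2 + 3 * Real.log (C + 1) + 3 * Real.log k) := by
      rcases Nat.eq_zero_or_pos d with h0 | h0
      · rw [h0]; simp
      · have hdpos : (0 : ℝ) < d := by exact_mod_cast h0
        refine mul_le_mul_of_nonneg_left ?_ hdpos.le
        rw [Real.log_mul (by norm_num) (by positivity), Real.log_pow]
        have h4 : Real.log 4 = 2 * Real.log 2 := by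
          rw [show (4 : ℝ) = 2 ^ 2 by norm_num, Real.log_pow]; norm_num
        have h5 : Real.log d ≤ Real.log (C + 1) + Real.log k := by
          rw [← Real.log_mul (by positivity) hkpos.ne']
          apply Real.log_le_log hdpos
          nlinarith
        rw [h4]
        push_cast
        linarith
    have g4 : Real.log (1 / c + 7) ≤ Real.log (1 / c + 7) / Real.log 2 * Real.log (k + 1) := by
      rw [div_mul_eq_mul_div, le_div_iff₀ hl0]
      exact mul_le_mul_of_nonneg_left hlk ha1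
    have g5 : Real.log (C + 1) ≤ Real.log (C + 1) / Real.log 2 * Real.log (k + 1) := by
      rw [div_mul_eq_mul_div, le_div_iff₀ hl0]
      exact mul_le_mul_of_nonneg_left hlk ha2
    have hlk0 : 0 < Real.log ((k : ℝ) + 1) := by linarith
    have hlogk : 0 ≤ Real.log k := Real.log_nonneg hk1
    have hlogK : 0 ≤ Real.log K := Real.log_nonneg (by linarith)
    have g6 : (Γ.card : ℝ) * Real.log K ≤ C * k * Real.log K := mul_le_mul_of_nonneg_right hΓ hlogK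
    have g7 : (d : ℝ) * (2 * Real.log 2 + 3 * Real.log (C + 1) + 3 * Real.log k) ≤
        C * k * (2 * Real.log 2 + 3 * Real.log (C + 1) + 3 * Real.log k) :=
      mul_le_mul_of_nonneg_right hdC (by positivity)
    have g8 : Real.log K + (2 * Real.log 2 + 3 * Real.log (C + 1) + 3 * Real.log k) ≤ E * Real.log (k + 1) := by
      rw [hE]
      have : (Real.log (1 / c + 7) / Real.log 2 + 6 + 3 * (Real.log (C + 1) / Real.log 2)) * Real.log (k + 1) =
        Real.log (1 / c + 7) / Real.log 2 * Real.log (k + 1) + 6 * Real.log (k + 1) +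
          3 * (Real.log (C + 1) / Real.log 2 * Real.log (k + 1)) := by ring
      rw [this]
      linarith
    have hCk : 0 ≤ C * (k : ℝ) := by positivity
    calc Real.log (M / p) ≤ C * k * (Real.log K + (2 * Real.log 2 + 3 * Real.log (C + 1) + 3 * Real.log k)) := by
          rw [mul_add]; linarith
      _ ≤ C * k * (E * Real.log (k + 1)) := mul_le_mul_of_nonneg_left g8 hCk
      _ = C * E * k * Real.log (k + 1) := by ring
  · refine hsub2.trans (subset_trans ?_ hsub)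
    intro x hx γ hγ
    exact (hx γ hγ).trans hK1

theorem bohr_of_prog (C : ℝ) (hC : 0 < C) (k M : ℕ) (hk : 0 < k) (hM : 0 < M) (B : Finset (ZMod M))
    (h : ProgGood C k M B) : BohrGood (180 * C + 1) (1 / (8 * (C + 3))) k M B := by
  obtain ⟨H, d, a, L, hprop, hd, hdens, hsub⟩ := h
  have : NeZero M := ⟨hM.ne'⟩
  have hk1 : (1 : ℝ) ≤ k := by exact_mod_cast hk
  have hkpos : (0 : ℝ) < k := by linarith
  obtain ⟨R, hR⟩ : ∃ R : ℝ, R = (C + 3) * k := ⟨_, rfl⟩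
  have hRd : (d : ℝ) + 2 ≤ R := by rw [hR]; nlinarith
  have hRk : (k : ℝ) + 1 ≤ R := by rw [hR]; nlinarith
  have hR0 : 0 < R := by linarith
  obtain ⟨Γ, h1, h2⟩ := GP.coset H a L hprop R hRd
  refine ⟨Γ, 1 / (8 * R), by positivity, ?_, ?_, fun x hx => hsub ?_⟩
  · rw [card_cosetProg hM H a L hprop] at hdens
    push_cast at hdens h1
    have hlogR : 0 < Real.log R := Real.log_pos (by linarith)
    have hlog : Real.log (k + 1) ≤ Real.log R := Real.log_le_log (by linarith) hRk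
    have h3 : Real.log ((M : ℝ) / ((Nat.card H : ℝ) * ((GP.box L).card : ℝ))) / Real.log R ≤ C * k := by
      rw [div_le_iff₀ hlogR]
      refine hdens.trans (mul_le_mul_of_nonneg_left hlog (by positivity))
    nlinarith
  · rw [hR]
    apply le_of_eq
    field_simp
  · obtain ⟨y, hy, m, hm, hxy⟩ := h2 x fun g hg => hx g hg
    exact ⟨y, hy, m, hm, hxy⟩

theorem FewBad.imp {δ : ℝ} {𝓜 : Set ℕ} {G G' : (k M : ℕ) → Finset (ZMod M) → Prop}
    (h : ∀ k M : ℕ, 0 < k → 0 < M → ∀ B, G k M B → G' k M B) (hG : FewBad δ 𝓜 G) : FewBad δ 𝓜 G' := by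
  intro j M₀
  obtain ⟨M, hM, hM0, hc⟩ := hG j M₀
  refine ⟨M, hM, hM0, lt_of_le_of_lt ?_ hc⟩
  have : NeZero M := ⟨by omega⟩
  have h1 : {B : Finset (ZMod M) | B.card = M / 2 ^ 2 ^ j + 1 ∧ ¬ G' (2 ^ j) M B}.ncard ≤
      {B : Finset (ZMod M) | B.card = M / 2 ^ 2 ^ j + 1 ∧ ¬ G (2 ^ j) M B}.ncard := by
    apply Set.ncard_le_ncard _ (Set.toFinite _)
    rintro B ⟨h1, h2⟩
    exact ⟨h1, fun h3 => h2 (h _ _ (by positivity) (by omega) B h3)⟩
  exact_mod_cast h1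

/-- If there are no exceptions then there are few exceptions. -/
theorem few_of_all {δ : ℝ} {𝓜 : Set ℕ} (h𝓜 : 𝓜.Infinite) {G : (k M : ℕ) → Finset (ZMod M) → Prop}
    (h : ∀ k M : ℕ, 0 < k → 0 < M → ∀ B : Finset (ZMod M), M ≤ 2 ^ k * B.card → G k M B) : FewBad δ 𝓜 G := by
  intro j M₀
  obtain ⟨M, hM, hM0⟩ := h𝓜.exists_gt (M₀ + 1)
  refine ⟨M, hM, by omega, ?_⟩
  obtain ⟨q, hq⟩ : ∃ q : ℕ, q = 2 ^ 2 ^ j := ⟨_, rfl⟩
  have hq2 : 2 ≤ q := by
    rw [hq]
    calc 2 = 2 ^ 1 := rfl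
      _ ≤ 2 ^ 2 ^ j := Nat.pow_le_pow_right (by norm_num) Nat.one_le_two_pow
  have h0 : {B : Finset (ZMod M) | B.card = M / 2 ^ 2 ^ j + 1 ∧ ¬ G (2 ^ j) M B} = ∅ := by
    rw [Set.eq_empty_iff_forall_notMem]
    rintro B ⟨h1, h2⟩
    refine h2 (h _ _ (by positivity) (by omega) B ?_)
    rw [← hq] at h1 ⊢
    rw [h1]
    exact (Nat.lt_mul_div_succ M (by omega)).le
  rw [h0, Set.ncard_empty, Nat.cast_zero, ← hq]
  apply Real.rpow_pos_of_pos
  have h1 : 0 < M.choose (M / q + 1) := by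
    apply Nat.choose_pos
    have h2 : M / q ≤ M / 2 := Nat.div_le_div_left hq2 (by norm_num)
    omega
  exact_mod_cast h1

/-- Q1 in the form of the frozen statement. -/
def Q1 : Prop := ∃ C : ℝ, 0 < C ∧ ∃ c : ℝ, 0 < c ∧ ∀ N : ℕ, 0 < N → ∀ A : Finset (ZMod N), A.Nonempty →
  (A.card : ℝ) / (N : ℝ) ≤ 1 / 2 → Concl C c A

theorem q1_of_bohr (δ : ℝ) (hδ : 0 < δ) (hδ1 : δ ≤ 1) (𝓜 : Set ℕ) (C c : ℝ) (hC : 0 < C) (hc : 0 < c)
    (h : FewBad δ 𝓜 (BohrGood C c)) : Q1 :=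
  ⟨24 * C / δ + 2, by positivity, c * δ / 36, by positivity,
    fun N hN A hA hα => few_to_all δ hδ hδ1 C c hC hc 𝓜 h N hN A hA hα⟩

theorem q1_of_prog (δ : ℝ) (hδ : 0 < δ) (hδ1 : δ ≤ 1) (𝓜 : Set ℕ) (C : ℝ) (hC : 0 < C)
    (h : FewBad δ 𝓜 (ProgGood C)) : Q1 :=
  q1_of_bohr δ hδ hδ1 𝓜 (180 * C + 1) (1 / (8 * (C + 3))) (by positivity) (by positivity)
    (h.imp fun k M hk hM B hB => bohr_of_prog C hC k M hk hM B hB)

theorem all_bohr (h : Q1) : ∃ C : ℝ, 0 < C ∧ ∃ c : ℝ, 0 < c ∧ ∀ (k M : ℕ), 0 < k → 0 < M →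
    ∀ B : Finset (ZMod M), M ≤ 2 ^ k * B.card → BohrGood C c k M B := by
  obtain ⟨C, hC, c, hc, h⟩ := h
  exact ⟨C, hC, c, hc, fun k M hk hM B hB => all_to_good C c hC hc h k M hk hM B hB⟩

theorem all_prog (h : Q1) : ∃ C : ℝ, 0 < C ∧ ∀ (k M : ℕ), 0 < k → 0 < M →
    ∀ B : Finset (ZMod M), M ≤ 2 ^ k * B.card → ProgGood C k M B := by
  obtain ⟨C, hC, c, hc, h⟩ := all_bohr h
  obtain ⟨C', hC', h'⟩ := prog_of_bohr C c hC hc
  exact ⟨C', hC', fun k M hk hM B hB => h' k M hk hM B (h k M hk hM B hB)⟩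

/-- **Equivalent forms of Q1.** -/
theorem main (𝓜 : Set ℕ) (h𝓜 : 𝓜.Infinite) (δ : ℝ) (hδ : 0 < δ) (hδ1 : δ ≤ 1) :
    (Q1 ↔ ∃ C : ℝ, 0 < C ∧ ∃ c : ℝ, 0 < c ∧ FewBad δ 𝓜 (BohrGood C c)) ∧
    (Q1 ↔ ∃ C : ℝ, 0 < C ∧ FewBad δ 𝓜 (ProgGood C)) ∧
    (Q1 ↔ ∃ C : ℝ, 0 < C ∧ ∀ (k M : ℕ), 0 < k → 0 < M →
      ∀ B : Finset (ZMod M), M ≤ 2 ^ k * B.card → ProgGood C k M B) := by
  refine ⟨⟨fun h => ?_, fun ⟨C, hC, c, hc, h⟩ => q1_of_bohr δ hδ hδ1 𝓜 C c hC hc h⟩,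
    ⟨fun h => ?_, fun ⟨C, hC, h⟩ => q1_of_prog δ hδ hδ1 𝓜 C hC h⟩,
    ⟨fun h => all_prog h, fun ⟨C, hC, h⟩ => q1_of_prog δ hδ hδ1 𝓜 C hC (few_of_all h𝓜 h)⟩⟩
  · obtain ⟨C, hC, c, hc, h⟩ := all_bohr h
    exact ⟨C, hC, c, hc, few_of_all h𝓜 h⟩
  · obtain ⟨C, hC, h⟩ := all_prog h
    exact ⟨C, hC, few_of_all h𝓜 h⟩

end Pool.Agent.Q215.BT
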