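import Pool.Agent.Q215.BT.Int
import Pool.Agent.Q215.BT.Str

/-! One scale. -/

set_option autoImplicit false

namespace Pool.Agent.Q215.BT

open Finset

/-- There are arbitrarily large moduli `M ∈ 𝓜` such that the number of the sets `B ⊆ ℤ/M` with
`s = ⌊M / 2 ^ k⌋ + 1` elements which do not have the property `G k M` is less than `(M choose s) ^ (1 - δ)`. -/
def FewAt (δ : ℝ) (𝓜 : Set ℕ) (G : (k M : ℕ) → Finset (ZMod M) → Prop) (k : ℕ) : Prop :=
  ∀ M₀ : ℕ, ∃ M ∈ 𝓜, M₀ < M ∧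
    (({B : Finset (ZMod M) | B.card = M / 2 ^ k + 1 ∧ ¬ G k M B}.ncard : ℕ) : ℝ) <
      ((M.choose (M / 2 ^ k + 1) : ℕ) : ℝ) ^ (1 - δ)

/-- Few exceptions suffice, one scale. -/
theorem few_scale (δ : ℝ) (hδ : 0 < δ) (hδ1 : δ ≤ 1) (C c : ℝ) (hC : 0 < C) (hc : 0 < c) (𝓜 : Set ℕ) (k : ℕ)
    (h : FewAt δ 𝓜 (BohrGood C c) k) (N : ℕ) (hN : 0 < N) (A : Finset (ZMod N)) (hAne : A.Nonempty)
    (hj1 : Real.log 32 + Real.log ((N : ℝ) / (A.card : ℝ)) ≤ δ * ((k : ℝ) - 2) * Real.log 2) :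
    ∃ (Γ : Finset (ZMod N)) (ε : ℝ), 0 < ε ∧ (Γ.card : ℝ) ≤ C * k + 1 ∧ 2 / 3 * c / k ≤ ε ∧
      bohr Γ ε ⊆ twoAMinusTwoA A := by
  classical
  have : NeZero N := ⟨hN.ne'⟩
  have hNpos : (0 : ℝ) < N := by exact_mod_cast hN
  have hApos : (0 : ℝ) < A.card := by exact_mod_cast hAne.card_pos
  have hAN : A.card ≤ N := by
    have := card_le_univ A
    rwa [ZMod.card] at this
  have hlog := Real.log_two_gt_d9
  have hlog0 : 0 < Real.log 2 := by linarith
  obtain ⟨l, hl⟩ : ∃ l : ℝ, l = Real.log ((N : ℝ) / (A.card : ℝ)) := ⟨_, rfl⟩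
  rw [← hl] at hj1
  have hl0 : 0 ≤ l := by
    rw [hl]
    apply Real.log_nonneg
    rw [le_div_iff₀ hApos, one_mul]
    exact_mod_cast hAN
  have h32 : Real.log 32 = 5 * Real.log 2 := by
    rw [show (32 : ℝ) = 2 ^ 5 by norm_num, Real.log_pow]; norm_num
  have hk2 : 2 ≤ k := by
    by_contra hcon
    push Not at hcon
    have h1 : (k : ℝ) ≤ 1 := by exact_mod_cast (by omega : k ≤ 1)
    have h2 : 0 < δ * Real.log 2 := by positivity
    rw [h32] at hj1
    nlinarith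
  obtain ⟨q, hq⟩ : ∃ q : ℕ, q = 2 ^ k := ⟨_, rfl⟩
  have hq0 : 0 < q := by rw [hq]; positivity
  have hqpos : (0 : ℝ) < q := by exact_mod_cast hq0
  -- `(q / 4) ^ δ ≥ 32 N / |A|`
  obtain ⟨θ, hθ⟩ : ∃ θ : ℝ, θ = (A.card : ℝ) / (32 * N) := ⟨_, rfl⟩
  have hθ0 : 0 < θ := by rw [hθ]; positivity
  have hθ1 : 1 / θ = 32 * (N / A.card) := by rw [hθ]; field_simp
  have hlogθ : Real.log (1 / θ) = Real.log 32 + l := by
    rw [hθ1, Real.log_mul (by norm_num) (by positivity), hl]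
  have hlogq : Real.log ((q : ℝ) / 4) = ((k : ℝ) - 2) * Real.log 2 := by
    rw [hq, Real.log_div (by positivity) (by norm_num)]
    push_cast
    rw [Real.log_pow, show (4 : ℝ) = 2 ^ 2 by norm_num, Real.log_pow]
    push_cast
    ring
  have hqθ : 1 / θ ≤ ((q : ℝ) / 4) ^ δ := by
    rw [← Real.log_le_log_iff (by positivity) (by positivity), Real.log_rpow (by positivity), hlogθ, hlogq]
    linarith
  have hq4 : (1 : ℝ) ≤ (q : ℝ) / 4 := by
    rw [hq, le_div_iff₀ (by norm_num)]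
    have : 2 ^ 2 ≤ 2 ^ k := Nat.pow_le_pow_right (by norm_num) hk2
    have h1 : (4 : ℝ) ≤ ((2 ^ k : ℕ) : ℝ) := by exact_mod_cast this
    linarith
  have hqθ' : 1 / θ ≤ (q : ℝ) / 4 := by
    refine hqθ.trans ?_
    calc ((q : ℝ) / 4) ^ δ ≤ ((q : ℝ) / 4) ^ (1 : ℝ) := Real.rpow_le_rpow_of_exponent_le hq4 hδ1
      _ = _ := Real.rpow_one _
  have hqA : 128 * N ≤ q * A.card := by
    rw [hθ1] at hqθ'
    rw [le_div_iff₀ (by norm_num), ← mul_div_assoc, div_mul_eq_mul_div, div_le_iff₀ hApos] at hqθ'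
    have : (128 : ℝ) * N ≤ q * A.card := by linarith
    exact_mod_cast this
  obtain ⟨M, -, hM, hbad⟩ := h (16 * N + q)
  rw [← hq] at hbad
  have : NeZero M := ⟨by omega⟩
  have hMpos : (0 : ℝ) < M := by exact_mod_cast NeZero.pos M
  have hcard := card_lift (N := N) (M := M) (by omega) A
  obtain ⟨S, hS⟩ : ∃ S : Finset (ZMod M), S = lift N M A := ⟨_, rfl⟩
  rw [← hS] at hcard
  obtain ⟨s, hs⟩ : ∃ s : ℕ, s = M / q + 1 := ⟨_, rfl⟩
  rw [← hs] at hbad
  have hs1 : 1 ≤ s := by rw [hs]; exact Nat.le_add_left 1 _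
  have hqs : q * s ≤ 2 * M := by
    rw [hs, mul_add, mul_one]
    have := Nat.mul_div_le M q
    omega
  have hSM : S.card ≤ M := by
    have := card_le_univ S
    rwa [ZMod.card] at this
  have hs2 : 2 * s ≤ S.card := by
    have h1 : 16 * N * (q * (2 * s)) ≤ 16 * N * (q * S.card) := by
      calc 16 * N * (q * (2 * s)) = 32 * N * (q * s) := by ring
        _ ≤ 32 * N * (2 * M) := Nat.mul_le_mul_left _ hqs
        _ ≤ (128 * N) * M := by nlinarith
        _ ≤ (q * A.card) * M := Nat.mul_le_mul_right _ hqA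
        _ = q * (A.card * M) := by ring
        _ ≤ q * (16 * N * S.card) := Nat.mul_le_mul_left _ hcard
        _ = _ := by ring
    have h2 : q * (2 * s) ≤ q * S.card := Nat.le_of_mul_le_mul_left h1 (by omega)
    exact Nat.le_of_mul_le_mul_left h2 hq0
  -- a good subset
  have hgood : ∃ B : Finset (ZMod M), B ⊆ S ∧ BohrGood C c k M B := by
    by_contra hcon
    push Not at hcon
    have hsub : ((S.powersetCard s : Finset (Finset (ZMod M))) :
        Set (Finset (ZMod M))) ⊆ {B : Finset (ZMod M) | B.card = s ∧ ¬ BohrGood C c k M B} := by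
      intro B hB
      rw [mem_coe, mem_powersetCard] at hB
      exact ⟨hB.2, hcon B hB.1⟩
    have h1 := Set.ncard_le_ncard hsub (Set.toFinite _)
    rw [Set.ncard_coe_finset, card_powersetCard] at h1
    have h2 := choose_lower S.card M s hs1 hs2 hSM θ δ hθ0 hδ (by
      rw [hθ]
      have h3 : ((A.card * M : ℕ) : ℝ) ≤ ((16 * N * S.card : ℕ) : ℝ) := by exact_mod_cast hcard
      push_cast at h3
      rw [show 2 * ((A.card : ℝ) / (32 * N)) * M = (A.card * M) / (16 * N) by field_simp; ring,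
        div_le_iff₀ (by positivity)]
      linarith) (by
      refine hqθ.trans (Real.rpow_le_rpow (by positivity) ?_ hδ.le)
      have hspos : (0 : ℝ) < s := by
        exact_mod_cast hs1
      rw [div_le_div_iff₀ (by norm_num) (by positivity)]
      have h3 : (q : ℝ) * s ≤ 2 * M := by exact_mod_cast hqs
      linarith)
    have h3 : ((S.card.choose s : ℕ) : ℝ) ≤
        (({B : Finset (ZMod M) | B.card = s ∧ ¬ BohrGood C c k M B}.ncard : ℕ) : ℝ) := by exact_mod_cast h1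
    linarith
  obtain ⟨B, hBS, Γ', ε, hε, hΓ', hcε, hsub⟩ := hgood
  obtain ⟨Γ, hΓ, hsub2⟩ := transfer (N := N) (M := M) (by omega) A Γ' ε
    (hsub.trans (two_mono (by rw [← hS]; exact hBS)))
  have hkpos : (0 : ℝ) < k := by
    have : 0 < k := by omega
    exact_mod_cast this
  refine ⟨Γ, 2 / 3 * ε, by positivity, ?_, ?_, hsub2⟩
  · have h1 : (Γ.card : ℝ) ≤ Γ'.card + 1 := by exact_mod_cast hΓ
    linarith
  · have h2 : 2 / 3 * c / k = 2 / 3 * (c / k) := by ring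
    rw [h2]
    linarith

end Pool.Agent.Q215.BT
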