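import Pool.Agent.Q215.BT.Scale

/-! Products: from one scale to all smaller scales. -/

set_option autoImplicit false

namespace Pool.Agent.Q215.BT

open Finset
open scoped Pointwise

theorem prog_of_lattice {M : ℕ} [NeZero M] (S : Set (ZMod M →+ UnitAddCircle)) (ε : ℝ) (hε : 0 < ε)
    (hε6 : ε ≤ 1 / 6) {m : ℕ} (Nn : Seminorm ℝ (Fin m → ℝ)) (ψ : (Fin m → ℤ) →+ ZMod M)
    (hN : ∀ x, Nn x = 0 → x = 0)
    (h1 : ∀ c : Fin m → ℤ, Nn (fun i => (c i : ℝ)) < 1 / 2 → ∀ r : ℝ, 0 ≤ r →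
      (ψ c ∈ H112.bohr S r ↔ c ∈ H112.LL Nn r))
    (h2 : ∀ x ∈ H112.bohr S ε, ∃ c ∈ H112.LL Nn ε, x - ψ c ∈ H112.ann S) :
    ∃ (H : AddSubgroup (ZMod M)) (d : ℕ) (a : Fin d → ZMod M) (L : Fin d → ℕ), Proper H a L ∧ d ≤ m ∧
      (H112.bohr S ε).ncard ≤ (4 * d ^ 3) ^ d * (cosetProg H a L).ncard ∧
      cosetProg H a L ⊆ H112.bohr S ε := by
  classical
  have hfin : (H112.bohr S (1 / 6)).Finite := Set.toFinite _
  have hLLfin : (H112.LL Nn ε).Finite :=
    (H112.gap_finite S hfin Nn ψ hN h1).subset (H112.gap_LL_mono Nn hε6)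
  obtain ⟨k, v, L, hkm, hli, hbox, hcard⟩ := H112.discrete_john Nn hε.le hLLfin
  have hψ : ∀ n : Fin k → ℤ, ∑ i, (n i : ZMod M) * ψ (v i) = ψ (∑ i, n i • v i) := by
    intro n
    rw [map_sum]
    refine sum_congr rfl fun i _ => ?_
    rw [map_zsmul, zsmul_eq_mul]
  have hprop : Proper (H112.ann S) (fun i => ψ (v i)) L := by
    intro n n' hn hn' hmem
    rw [hψ, hψ, ← map_sub] at hmem
    have g1 := H112.gap_LL_sub Nn (hbox n hn) (hbox n' hn')
    have g2 : Nn (fun i => (((∑ i, n i • v i) - (∑ i, n' i • v i)) i : ℝ)) < 1 / 2 :=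
      lt_of_le_of_lt g1 (by linarith)
    have g3 : ψ ((∑ i, n i • v i) - (∑ i, n' i • v i)) ∈ H112.bohr S 0 := by
      intro γ hγ
      rw [hmem γ hγ, norm_zero]
    have g4 := (h1 _ g2 0 le_rfl).1 g3
    have g5 := H112.gap_LL_eq_zero Nn hN g4
    have g6 : ∑ i, (n i - n' i) • v i = 0 := by
      rw [← g5, ← sum_sub_distrib]
      exact sum_congr rfl fun i _ => sub_smul _ _ _
    have g7 := (Fintype.linearIndependent_iff.1 hli) _ g6
    funext i
    exact sub_eq_zero.1 (g7 i)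
  refine ⟨H112.ann S, k, fun i => ψ (v i), L, hprop, hkm, ?_, ?_⟩
  · have hM := NeZero.pos M
    rw [card_cosetProg hM _ _ _ hprop, Pool.Agent.TH858.GP.card_box]
    have hsub : H112.bohr S ε ⊆ (fun p : (Fin m → ℤ) × ZMod M => ψ p.1 + p.2) ''
        ((H112.LL Nn ε) ×ˢ (H112.ann S : Set (ZMod M))) := by
      intro x hx
      obtain ⟨c, hc, hxc⟩ := h2 x hx
      exact ⟨(c, x - ψ c), ⟨hc, hxc⟩, by simp⟩
    have hfin2 : ((H112.LL Nn ε) ×ˢ (H112.ann S : Set (ZMod M))).Finite := hLLfin.prod (Set.toFinite _)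
    have g1 := Set.ncard_le_ncard hsub (hfin2.image _)
    have g2 := Set.ncard_image_le (f := fun p : (Fin m → ℤ) × ZMod M => ψ p.1 + p.2) hfin2
    rw [Set.ncard_prod] at g2
    have g3 : (H112.ann S : Set (ZMod M)).ncard = Nat.card (H112.ann S) := rfl
    rw [g3] at g2
    calc (H112.bohr S ε).ncard ≤ (H112.LL Nn ε).ncard * Nat.card (H112.ann S) := g1.trans g2
      _ ≤ ((4 * k ^ 3) ^ k * ∏ i, (2 * L i + 1)) * Nat.card (H112.ann S) := Nat.mul_le_mul_right _ hcard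
      _ = (4 * k ^ 3) ^ k * (Nat.card (H112.ann S) * ∏ i, (2 * L i + 1)) := by ring
  · rintro x ⟨h, hh, n, hn, rfl⟩
    rw [hψ]
    have g1 : ψ (∑ i, n i • v i) ∈ H112.bohr S ε := by
      have g2 := hbox n hn
      refine (h1 _ (lt_of_le_of_lt g2 (by linarith)) ε hε.le).2 g2
    intro γ hγ
    rw [map_add, hh γ hγ, zero_add]
    exact g1 γ hγ

theorem bohr_mono_r {N : ℕ} [NeZero N] (Γ : Finset (ZMod N)) {r s : ℝ} (h : r ≤ s) : bohr Γ r ⊆ bohr Γ s := by
  intro x hx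
  rw [mem_bohr] at hx ⊢
  exact fun γ hγ => (hx γ hγ).trans h

theorem bohr_add {N : ℕ} [NeZero N] (Γ : Finset (ZMod N)) {r s : ℝ} {x y : ZMod N} (hx : x ∈ bohr Γ r)
    (hy : y ∈ bohr Γ s) : x + y ∈ bohr Γ (r + s) := by
  rw [mem_bohr] at hx hy ⊢
  intro γ hγ
  rw [mul_add, map_add]
  exact (norm_add_le _ _).trans (add_le_add (hx γ hγ) (hy γ hγ))

theorem bohr_neg {N : ℕ} [NeZero N] (Γ : Finset (ZMod N)) {r : ℝ} {x : ZMod N} (hx : x ∈ bohr Γ r) :
    -x ∈ bohr Γ r := by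
  rw [mem_bohr] at hx ⊢
  intro γ hγ
  rw [mul_neg, map_neg, norm_neg]
  exact hx γ hγ

theorem bohr_zero {N : ℕ} [NeZero N] (Γ : Finset (ZMod N)) {r : ℝ} (hr : 0 ≤ r) : (0 : ZMod N) ∈ bohr Γ r := by
  rw [mem_bohr]
  intro γ _
  rw [mul_zero, map_zero, norm_zero]
  exact hr

/-- One factor of a product. -/
theorem one_factor {M m₀ : ℕ} [NeZero M] [NeZero m₀] (π : ZMod M →+ ZMod m₀) (Γ : Finset (ZMod M)) (E T : ℕ)
    (hE : 0 < E) (hT1 : 1 ≤ T) (g : ℝ) (hg : 0 ≤ g)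
    (hD : Real.log ((m₀ : ℝ) / ((π '' bohr Γ (1 / (E * 2 ^ (2 * T)))).ncard : ℝ)) ≤ g * T)
    (hT : (2 : ℝ) ^ 203 * (2 * (1 + (1 + g))) ^ 16 ≤ 2 ^ T) :
    ∃ (H : AddSubgroup (ZMod m₀)) (d : ℕ) (a : Fin d → ZMod m₀) (L : Fin d → ℕ), Proper H a L ∧
      (d : ℝ) ≤ 300 * (1 + g) ∧
      Real.log ((m₀ : ℝ) / ((cosetProg H a L).ncard : ℝ)) ≤
        g * T + 8000 * (1 + g) * (1 + Real.log (1 + (1 + g))) + d * Real.log (4 * (d : ℝ) ^ 3) ∧
      cosetProg H a L ⊆ π '' bohr Γ (1 / E) := by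
  classical
  have hEpos : (0 : ℝ) < E := by exact_mod_cast hE
  have hm0 : (0 : ℝ) < m₀ := by exact_mod_cast NeZero.pos m₀
  let Q : ℕ → Finset (ZMod m₀) := fun t => (Set.toFinite (π '' bohr Γ (1 / (E * 2 ^ t)))).toFinset
  have hQmem : ∀ t x, x ∈ Q t ↔ x ∈ π '' bohr Γ (1 / (E * 2 ^ t)) := fun t x => Set.Finite.mem_toFinset _
  have hQcard : ∀ t, ((π '' bohr Γ (1 / (E * 2 ^ t))).ncard) = (Q t).card := fun t =>
    Set.ncard_eq_toFinset_card _ _
  have hQmono : ∀ t t', t ≤ t' → Q t' ⊆ Q t := by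
    intro t t' htt x hx
    rw [hQmem] at hx ⊢
    obtain ⟨y, hy, rfl⟩ := hx
    refine ⟨y, bohr_mono_r Γ ?_ hy, rfl⟩
    apply one_div_le_one_div_of_le (by positivity)
    exact mul_le_mul_of_nonneg_left (pow_le_pow_right₀ (by norm_num) htt) hEpos.le
  have hQne : ∀ t, (Q t).Nonempty := fun t => ⟨0, by
    rw [hQmem]
    exact ⟨0, bohr_zero Γ (by positivity), map_zero π⟩⟩
  have hQpos : ∀ t, (0 : ℝ) < (Q t).card := fun t => by exact_mod_cast (hQne t).card_pos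
  have hQle : ∀ t, ((Q t).card : ℝ) ≤ m₀ := by
    intro t
    have := card_le_univ (Q t)
    rw [ZMod.card] at this
    exact_mod_cast this
  rw [hQcard, Real.log_div hm0.ne' (hQpos _).ne'] at hD
  -- the scale
  obtain ⟨t, ht, htg⟩ : ∃ t < T, Real.log (Q (T + t)).card - Real.log (Q (T + t + 1)).card ≤ g := by
    by_contra hcon
    push Not at hcon
    have h1 : ∑ t ∈ range T, g ≤
        ∑ t ∈ range T, (Real.log (Q (T + t)).card - Real.log (Q (T + (t + 1))).card) :=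
      sum_le_sum fun t ht => (hcon t (mem_range.1 ht)).le
    have h1' : ∑ t ∈ range T, g <
        ∑ t ∈ range T, (Real.log (Q (T + t)).card - Real.log (Q (T + (t + 1))).card) :=
      sum_lt_sum_of_nonempty ⟨0, mem_range.2 hT1⟩ fun t ht => hcon t (mem_range.1 ht)
    rw [sum_range_sub' (fun t => Real.log ((Q (T + t)).card : ℝ)), sum_const, card_range, nsmul_eq_mul,
      add_zero, ← two_mul] at h1'
    have h2 : Real.log (Q T).card ≤ Real.log m₀ := Real.log_le_log (hQpos _) (hQle _)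
    linarith
  obtain ⟨s, hs⟩ : ∃ s, s = T + t := ⟨_, rfl⟩
  rw [← hs] at htg
  obtain ⟨A, hA⟩ : ∃ A : Finset (ZMod m₀), A = Q (s + 1) := ⟨_, rfl⟩
  rw [← hA] at htg
  have hAne : A.Nonempty := by rw [hA]; exact hQne _
  have hApos : (0 : ℝ) < A.card := by exact_mod_cast hAne.card_pos
  have hAA : ((A + A).card : ℝ) ≤ Real.exp g * A.card := by
    have h1 : A + A ⊆ Q s := by
      intro x hx
      rw [mem_add] at hx
      obtain ⟨y, hy, z, hz, rfl⟩ := hx
      rw [hA, hQmem] at hy hz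
      obtain ⟨y', hy', rfl⟩ := hy
      obtain ⟨z', hz', rfl⟩ := hz
      rw [hQmem]
      refine ⟨y' + z', ?_, map_add π _ _⟩
      have h2 := bohr_add Γ hy' hz'
      refine bohr_mono_r Γ (le_of_eq ?_) h2
      rw [pow_succ]; field_simp; ring
    have h2 : ((A + A).card : ℝ) ≤ (Q s).card := by exact_mod_cast card_le_card h1
    have h3 : ((Q s).card : ℝ) ≤ Real.exp g * A.card := by
      rw [← Real.exp_log (hQpos s), ← Real.exp_log hApos, ← Real.exp_add]
      exact Real.exp_le_exp.2 (by linarith)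
    exact h2.trans h3
  let F : ℕ → Finset (ZMod m₀) := fun a => (Set.toFinite (π '' bohr Γ (a * (1 / (E * 2 ^ (s + 1)))))).toFinset
  have hFmem : ∀ a x, x ∈ F a ↔ x ∈ π '' bohr Γ (a * (1 / (E * 2 ^ (s + 1)))) := fun a x =>
    Set.Finite.mem_toFinset _
  have hF0 : (0 : ZMod m₀) ∈ F 0 := by
    rw [hFmem]
    exact ⟨0, bohr_zero Γ (by simp), map_zero π⟩
  have hFadd : ∀ a b x y, x ∈ F a → y ∈ F b → x + y ∈ F (a + b) := by
    intro a b x y hx hy
    rw [hFmem] at hx hy ⊢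
    obtain ⟨x', hx', rfl⟩ := hx
    obtain ⟨y', hy', rfl⟩ := hy
    refine ⟨x' + y', ?_, map_add π _ _⟩
    refine bohr_mono_r Γ (le_of_eq ?_) (bohr_add Γ hx' hy')
    push_cast; ring
  have hFneg : ∀ a x, x ∈ F a → -x ∈ F a := by
    intro a x hx
    rw [hFmem] at hx ⊢
    obtain ⟨x', hx', rfl⟩ := hx
    exact ⟨-x', bohr_neg Γ hx', map_neg π _⟩
  have hFA : A ⊆ F 1 := by
    intro x hx
    rw [hA, hQmem] at hx
    rw [hFmem, Nat.cast_one, one_mul]
    exact hx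
  obtain ⟨κ, hκ⟩ : ∃ κ : ℝ, κ = Real.log (2 * Real.exp g) := ⟨_, rfl⟩
  have hκg : κ = Real.log 2 + g := by
    rw [hκ, Real.log_mul (by norm_num) (Real.exp_pos g).ne', Real.log_exp]
  have hlog2 := Real.log_two_lt_d9
  have hlog2' := Real.log_two_gt_d9
  have hκ1 : κ ≤ 1 + g := by linarith
  have hκ0 : 0 < κ := by linarith
  obtain ⟨S, X, V, ρ, m, Nn, ψ, -, hV, -, hρ0, hρ12, hX, hN, h1, h2, hm, hXV, Lx, hLx, hsub⟩ :=
    SX.structure_thm' F hF0 hFadd hFneg (K := Real.exp g) hFA hAne hAA (Real.one_le_exp hg) hκ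
  obtain ⟨H, d, a, L, hprop, hdm, hcard, hPsub⟩ := prog_of_lattice S ρ hρ0 (by linarith) Nn ψ hN h1 h2
  refine ⟨H, d, a, L, hprop, ?_, ?_, ?_⟩
  · have h3 : (d : ℝ) ≤ m := by exact_mod_cast hdm
    linarith
  · -- the size
    have hAX : A.card ≤ X.card * (H112.bohr S ρ).ncard := by
      have hfinS : (H112.bohr S ρ).Finite := Set.toFinite _
      have h3 : A ⊆ (X ×ˢ hfinS.toFinset).image fun p => p.1 + p.2 := by
        intro y hy
        obtain ⟨x, hx, hxy⟩ := hX y hy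
        rw [mem_image]
        exact ⟨(x, y - x), mem_product.2 ⟨hx, (Set.Finite.mem_toFinset _).2 hxy⟩, by simp⟩
      have h4 := (card_le_card h3).trans card_image_le
      rw [card_product, ← Set.ncard_eq_toFinset_card _ hfinS] at h4
      exact h4
    obtain ⟨p, hp⟩ : ∃ p : ℕ, p = (cosetProg H a L).ncard := ⟨_, rfl⟩
    rw [← hp] at hcard ⊢
    have hAall : A.card ≤ X.card * ((4 * d ^ 3) ^ d * p) := hAX.trans (Nat.mul_le_mul_left _ hcard)
    have hA0 := hAne.card_pos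
    have hp0 : 0 < p := by
      rcases Nat.eq_zero_or_pos p with h0 | h0
      · rw [h0, mul_zero, mul_zero] at hAall; omega
      · exact h0
    have hX0 : 0 < X.card := by
      rcases Nat.eq_zero_or_pos X.card with h0 | h0
      · rw [h0, zero_mul] at hAall; omega
      · exact h0
    have hd0 : 0 < (4 * d ^ 3) ^ d := by
      rcases Nat.eq_zero_or_pos ((4 * d ^ 3) ^ d) with h0 | h0
      · rw [h0, zero_mul, mul_zero] at hAall; omega
      · exact h0
    have hppos : (0 : ℝ) < p := by exact_mod_cast hp0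
    have hXpos : (0 : ℝ) < X.card := by exact_mod_cast hX0
    have hdpos : (0 : ℝ) < (4 * (d : ℝ) ^ 3) ^ d := by exact_mod_cast hd0
    have h3 : Real.log A.card ≤ Real.log X.card + (d * Real.log (4 * (d : ℝ) ^ 3) + Real.log p) := by
      rw [← Real.log_pow, ← Real.log_mul hdpos.ne' hppos.ne', ← Real.log_mul hXpos.ne' (by positivity)]
      apply Real.log_le_log hApos
      exact_mod_cast hAall
    have h4 : Real.log X.card ≤ 8000 * (1 + g) * (1 + Real.log (1 + (1 + g))) := by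
      have h5 : (X.card : ℝ) ≤ Real.exp (8000 * κ * (1 + Real.log (1 + κ))) := by
        refine le_trans ?_ hXV
        exact le_mul_of_one_le_right hXpos.le hV
      have h6 := Real.log_le_log hXpos h5
      rw [Real.log_exp] at h6
      refine h6.trans ?_
      have h7 : Real.log (1 + κ) ≤ Real.log (1 + (1 + g)) := Real.log_le_log (by linarith) (by linarith)
      have h8 : 0 ≤ Real.log (1 + κ) := Real.log_nonneg (by linarith)
      exact mul_le_mul (by linarith) (by linarith) (by linarith) (by linarith)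
    have h5 : Real.log (Q (2 * T)).card ≤ Real.log A.card := by
      apply Real.log_le_log (hQpos _)
      rw [hA]
      exact_mod_cast card_le_card (hQmono (s + 1) (2 * T) (by omega))
    rw [Real.log_div hm0.ne' hppos.ne']
    linarith
  · intro x hx
    have h3 := hPsub hx
    have h4 : x ∈ H112.bohr S (1 / 6) := fun γ hγ => (h3 γ hγ).trans (by linarith)
    have h5 := hsub x h4
    rw [hFmem] at h5
    obtain ⟨y, hy, rfl⟩ := h5
    refine ⟨y, bohr_mono_r Γ ?_ hy, rfl⟩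
    have h6 : (((2 + 4 * (2 ^ (8 * Lx + 100) * 2 ^ (8 * Lx + 100)) : ℕ)) : ℝ) ≤ 2 ^ (s + 1) := by
      have h7 : (2 : ℝ) ^ 203 * (2 ^ Lx) ^ 16 ≤ 2 ^ T := by
        refine le_trans ?_ hT
        apply mul_le_mul_of_nonneg_left _ (by positivity)
        apply pow_le_pow_left₀ (by positivity)
        linarith
      have h8 : (2 : ℝ) ^ T ≤ 2 ^ (s + 1) := pow_le_pow_right₀ (by norm_num) (by omega)
      have h9 : (((2 + 4 * (2 ^ (8 * Lx + 100) * 2 ^ (8 * Lx + 100)) : ℕ)) : ℝ) =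
          2 + 2 ^ 202 * (2 ^ Lx) ^ 16 := by
        push_cast
        rw [← pow_add, ← pow_mul, show 8 * Lx + 100 + (8 * Lx + 100) = Lx * 16 + 200 by ring, pow_add]
        ring
      have h10 : (1 : ℝ) ≤ (2 ^ Lx) ^ 16 := one_le_pow₀ (one_le_pow₀ (by norm_num))
      rw [h9]
      have h11 : (2 : ℝ) ^ 203 = 2 * 2 ^ 202 := by norm_num
      rw [h11] at h7
      have h12 : (2 : ℝ) ≤ 2 ^ 202 := by norm_num
      nlinarith
    rw [mul_one_div, div_le_div_iff₀ (by positivity) hEpos, one_mul]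
    have h13 : 0 ≤ (E : ℝ) := hEpos.le
    nlinarith

end Pool.Agent.Q215.BT
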