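import Pool.Agent.Q215.BT.Defs

/-! Transfer of a Bohr set from `ℤ/M` to `ℤ/N`. -/

set_option autoImplicit false

namespace Pool.Agent.Q215.BT

open Finset

/-- The lift of a set `A ⊆ ℤ/N` to `ℤ/M`. -/
def lift (N M : ℕ) [NeZero M] (A : Finset (ZMod N)) : Finset (ZMod M) :=
  univ.filter fun y : ZMod M => ((y.val * N / M : ℕ) : ZMod N) ∈ A ∧ 8 * ((y.val * N) % M) < M

theorem mem_lift (N M : ℕ) [NeZero M] (A : Finset (ZMod N)) (y : ZMod M) :
    y ∈ lift N M A ↔ ((y.val * N / M : ℕ) : ZMod N) ∈ A ∧ 8 * ((y.val * N) % M) < M := by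
  unfold lift
  rw [mem_filter]
  exact ⟨fun h => h.2, fun h => ⟨mem_univ _, h⟩⟩

/-- The size of the lift. -/
theorem card_lift {N M : ℕ} [NeZero N] [NeZero M] (hNM : 16 * N ≤ M) (A : Finset (ZMod N)) :
    A.card * M ≤ 16 * N * (lift N M A).card := by
  classical
  have hN := NeZero.pos N
  have hM := NeZero.pos M
  obtain ⟨t, ht⟩ : ∃ t : ℕ, t = M / (8 * N) := ⟨_, rfl⟩
  have ht1 : 8 * N * t ≤ M := by rw [ht]; exact Nat.mul_div_le _ _
  have ht2 : M < 8 * N * (t + 1) := by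
    rw [ht]
    exact Nat.lt_mul_div_succ _ (by positivity)
  have ht3 : M ≤ 16 * N * t := by
    have : 1 ≤ t := by
      rcases Nat.eq_zero_or_pos t with h | h
      · rw [h] at ht2; omega
      · exact h
    nlinarith
  -- the points
  have hc1 : ∀ x : ZMod N, x.val * M ≤ N * ((x.val * M + (N - 1)) / N) := by
    intro x
    have h := Nat.lt_mul_div_succ (x.val * M + (N - 1)) hN
    have : N * ((x.val * M + (N - 1)) / N + 1) = N * ((x.val * M + (N - 1)) / N) + N := by ring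
    omega
  have hc2 : ∀ x : ZMod N, N * ((x.val * M + (N - 1)) / N) ≤ x.val * M + (N - 1) :=
    fun x => Nat.mul_div_le _ _
  let f : ZMod N × ℕ → ZMod M := fun p => (((p.1.val * M + (N - 1)) / N + p.2 : ℕ) : ZMod M)
  have hlt : ∀ (x : ZMod N) (j : ℕ), j < t → N * ((x.val * M + (N - 1)) / N + j) < x.val * M + N * t := by
    intro x j hj
    have h1 := hc2 x
    have h2 : N * (j + 1) ≤ N * t := Nat.mul_le_mul_left _ hj
    have h3 : N * ((x.val * M + (N - 1)) / N + j) = N * ((x.val * M + (N - 1)) / N) + N * j := by ring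
    have h4 : N * (j + 1) = N * j + N := by ring
    omega
  have hval : ∀ (x : ZMod N) (j : ℕ), j < t → (f (x, j)).val = (x.val * M + (N - 1)) / N + j := by
    intro x j hj
    have hx : x.val + 1 ≤ N := ZMod.val_lt x
    have h5 : (x.val + 1) * M ≤ N * M := Nat.mul_le_mul_right _ hx
    have h6 := hlt x j hj
    have h7 : 8 * (N * t) ≤ M := by linarith [ht1]
    have h8 : N * ((x.val * M + (N - 1)) / N + j) < N * M := by
      have : (x.val + 1) * M = x.val * M + M := by ring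
      omega
    exact ZMod.val_cast_of_lt (Nat.lt_of_mul_lt_mul_left h8)
  have hdiv : ∀ (x : ZMod N) (j : ℕ), j < t →
      (f (x, j)).val * N / M = x.val ∧ 8 * (((f (x, j)).val * N) % M) < M := by
    intro x j hj
    rw [hval x j hj]
    have h6 := hlt x j hj
    have h9 : x.val * M ≤ N * ((x.val * M + (N - 1)) / N + j) := by
      have := hc1 x
      have h3 : N * ((x.val * M + (N - 1)) / N + j) = N * ((x.val * M + (N - 1)) / N) + N * j := by ring
      omega
    have h7 : 8 * (N * t) ≤ M := by linarith [ht1]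
    obtain ⟨w, hw⟩ : ∃ w : ℕ, w = N * ((x.val * M + (N - 1)) / N + j) := ⟨_, rfl⟩
    rw [← hw] at h6 h9
    rw [mul_comm _ N, ← hw]
    obtain ⟨r, hr⟩ : ∃ r : ℕ, w = x.val * M + r := ⟨w - x.val * M, by omega⟩
    have hrM : 8 * r < M := by omega
    have h10 : w / M = x.val := by
      rw [hr, mul_comm, Nat.mul_add_div hM, Nat.div_eq_of_lt (by omega), add_zero]
    have h11 : w % M = r := by
      rw [hr, mul_comm, Nat.mul_add_mod, Nat.mod_eq_of_lt (by omega)]
    rw [h10, h11]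
    exact ⟨rfl, hrM⟩
  have hmaps : ∀ p ∈ A ×ˢ range t, f p ∈ lift N M A := by
    rintro ⟨x, j⟩ hp
    rw [mem_product, mem_range] at hp
    rw [mem_lift]
    obtain ⟨h1, h2⟩ := hdiv x j hp.2
    refine ⟨?_, h2⟩
    rw [h1, ZMod.natCast_zmod_val]
    exact hp.1
  have hinj : Set.InjOn f (A ×ˢ range t : Finset (ZMod N × ℕ)) := by
    rintro ⟨x, j⟩ hp ⟨x', j'⟩ hp' h
    rw [mem_coe, mem_product, mem_range] at hp hp'
    have h1 := (hdiv x j hp.2).1
    have h2 := (hdiv x' j' hp'.2).1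
    have h3 : x.val = x'.val := by rw [← h1, ← h2, h]
    have h4 : x = x' := ZMod.val_injective N h3
    subst h4
    have h5 := hval x j hp.2
    have h6 := hval x j' hp'.2
    rw [h] at h5
    have : j = j' := by omega
    rw [this]
  have hcard := card_le_card_of_injOn f hmaps hinj
  rw [card_product, card_range] at hcard
  calc A.card * M ≤ A.card * (16 * N * t) := Nat.mul_le_mul_left _ ht3
    _ = 16 * N * (A.card * t) := by ring
    _ ≤ 16 * N * (lift N M A).card := Nat.mul_le_mul_left _ hcard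

/-- The combinatorial part: a rounded point in `2A' - 2A'` gives a point in `2A - 2A`. -/
theorem back {N M : ℕ} [NeZero N] [NeZero M] (hNM : N ≤ M) (A : Finset (ZMod N)) (X v : ℤ)
    (hv : 2 * |v * N - X * M| ≤ N) (h : ((v : ℤ) : ZMod M) ∈ twoAMinusTwoA (lift N M A)) :
    ((X : ℤ) : ZMod N) ∈ twoAMinusTwoA A := by
  obtain ⟨a, ha, b, hb, c, hc, d, hd, he⟩ := h
  rw [mem_lift] at ha hb hc hd
  refine ⟨_, ha.1, _, hb.1, _, hc.1, _, hd.1, ?_⟩
  have hda := Nat.div_add_mod (a.val * N) M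
  have hdb := Nat.div_add_mod (b.val * N) M
  have hdc := Nat.div_add_mod (c.val * N) M
  have hdd := Nat.div_add_mod (d.val * N) M
  obtain ⟨qa, hqa⟩ : ∃ q : ℕ, q = a.val * N / M := ⟨_, rfl⟩
  obtain ⟨qb, hqb⟩ : ∃ q : ℕ, q = b.val * N / M := ⟨_, rfl⟩
  obtain ⟨qc, hqc⟩ : ∃ q : ℕ, q = c.val * N / M := ⟨_, rfl⟩
  obtain ⟨qd, hqd⟩ : ∃ q : ℕ, q = d.val * N / M := ⟨_, rfl⟩
  obtain ⟨ra, hra⟩ : ∃ q : ℕ, q = (a.val * N) % M := ⟨_, rfl⟩
  obtain ⟨rb, hrb⟩ : ∃ q : ℕ, q = (b.val * N) % M := ⟨_, rfl⟩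
  obtain ⟨rc, hrc⟩ : ∃ q : ℕ, q = (c.val * N) % M := ⟨_, rfl⟩
  obtain ⟨rd, hrd⟩ : ∃ q : ℕ, q = (d.val * N) % M := ⟨_, rfl⟩
  rw [← hqa, ← hra] at hda
  rw [← hqb, ← hrb] at hdb
  rw [← hqc, ← hrc] at hdc
  rw [← hqd, ← hrd] at hdd
  rw [← hra] at ha
  rw [← hrb] at hb
  rw [← hrc] at hc
  rw [← hrd] at hd
  rw [← hqa, ← hqb, ← hqc, ← hqd]
  have hcast : ((v : ℤ) : ZMod M) = (((a.val : ℤ) + b.val - c.val - d.val : ℤ) : ZMod M) := by
    rw [he]
    push_cast
    rw [ZMod.natCast_zmod_val, ZMod.natCast_zmod_val, ZMod.natCast_zmod_val, ZMod.natCast_zmod_val]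
  rw [ZMod.intCast_eq_intCast_iff_dvd_sub] at hcast
  obtain ⟨w, hw⟩ := hcast
  -- `v = a + b - c - d - M w`
  have e1 : (M : ℤ) * qa + ra = a.val * N := by exact_mod_cast hda
  have e2 : (M : ℤ) * qb + rb = b.val * N := by exact_mod_cast hdb
  have e3 : (M : ℤ) * qc + rc = c.val * N := by exact_mod_cast hdc
  have e4 : (M : ℤ) * qd + rd = d.val * N := by exact_mod_cast hdd
  have e5 : v * N - X * M = M * ((qa + qb - qc - qd : ℤ) - N * w - X) + (ra + rb - rc - rd) := by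
    have : v = a.val + b.val - c.val - d.val - M * w := by linarith
    rw [this]
    linear_combination (-1 : ℤ) * e1 - e2 + e3 + e4
  have hM : (0 : ℤ) < M := by exact_mod_cast NeZero.pos M
  have hNM' : (N : ℤ) ≤ M := by exact_mod_cast hNM
  have f1 : 8 * (ra : ℤ) < M := by exact_mod_cast ha.2
  have f2 : 8 * (rb : ℤ) < M := by exact_mod_cast hb.2
  have f3 : 8 * (rc : ℤ) < M := by exact_mod_cast hc.2
  have f4 : 8 * (rd : ℤ) < M := by exact_mod_cast hd.2
  have hz : ((qa + qb - qc - qd : ℤ) - N * w - X) = 0 := by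
    obtain ⟨z, hz⟩ : ∃ z : ℤ, z = ((qa + qb - qc - qd : ℤ) - N * w - X) := ⟨_, rfl⟩
    rw [← hz] at e5 ⊢
    have h1 := abs_le.1 (show |v * N - X * M| ≤ |v * N - X * M| from le_rfl)
    have g1 : (0 : ℤ) ≤ ra := by positivity
    have g2 : (0 : ℤ) ≤ rb := by positivity
    have g3 : (0 : ℤ) ≤ rc := by positivity
    have g4 : (0 : ℤ) ≤ rd := by positivity
    have h2 : (M : ℤ) * z < M := by linarith [h1.2]
    have h3 : -(M : ℤ) < M * z := by linarith [h1.1]
    have h4 : z < 1 := by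
      by_contra hcon
      push Not at hcon
      nlinarith
    have h5 : -1 < z := by
      by_contra hcon
      push Not at hcon
      nlinarith
    omega
  have hX : X = (qa + qb - qc - qd : ℤ) - N * w := by linarith
  rw [hX]
  push_cast
  rw [ZMod.natCast_self]
  ring

/-- **Transfer.** -/
theorem transfer {N M : ℕ} [NeZero N] [NeZero M] (hNM : N ≤ M) (A : Finset (ZMod N)) (Γ' : Finset (ZMod M))
    (ε : ℝ) (h : bohr Γ' ε ⊆ twoAMinusTwoA (lift N M A)) :
    ∃ Γ : Finset (ZMod N), Γ.card ≤ Γ'.card + 1 ∧ bohr Γ (2 / 3 * ε) ⊆ twoAMinusTwoA A := by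
  classical
  have hNpos : (0 : ℝ) < N := by exact_mod_cast NeZero.pos N
  have hMpos : (0 : ℝ) < M := by exact_mod_cast NeZero.pos M
  refine ⟨insert ((M : ℕ) : ZMod N) (Γ'.image fun g => ((g.valMinAbs : ℤ) : ZMod N)), ?_, ?_⟩
  · exact (card_insert_le _ _).trans (Nat.add_le_add_right card_image_le _)
  · intro x hx
    rw [mem_bohr] at hx
    obtain ⟨X, hX⟩ : ∃ X : ℤ, X = (x.val : ℤ) := ⟨_, rfl⟩
    have hxX : x = ((X : ℤ) : ZMod N) := by
      rw [hX]
      push_cast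
      rw [ZMod.natCast_zmod_val]
    obtain ⟨v, hv⟩ : ∃ v : ℤ, v = round ((X : ℝ) * M / N) := ⟨_, rfl⟩
    obtain ⟨δ, hδ⟩ : ∃ δ : ℝ, δ = (v : ℝ) - (X : ℝ) * M / N := ⟨_, rfl⟩
    have hδ2 : |δ| ≤ 1 / 2 := by
      rw [hδ, hv, abs_sub_comm]
      exact abs_sub_round _
    -- the frequency `M`
    have hδ1 : |δ| ≤ 2 / 3 * ε := by
      have h1 := hx ((M : ℕ) : ZMod N) (mem_insert_self _ _)
      have h2 : ((M : ℕ) : ZMod N) * x = (((M : ℤ) * X : ℤ) : ZMod N) := by
        rw [hxX]; push_cast; ring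
      rw [h2, ZMod.toAddCircle_intCast, UnitAddCircle.norm_eq] at h1
      have h3 : ((((M : ℤ) * X : ℤ) : ℝ) / N) = (X : ℝ) * M / N := by push_cast; ring
      rw [h3, ← hv, abs_sub_comm, ← hδ] at h1
      exact h1
    rw [hxX]
    refine back hNM A X v ?_ (h ?_)
    · have h1 : ((v * N - X * M : ℤ) : ℝ) = δ * N := by
        rw [hδ]; push_cast; field_simp
      have h2 : |((v * N - X * M : ℤ) : ℝ)| ≤ 1 / 2 * N := by
        rw [h1, abs_mul, abs_of_pos hNpos]
        exact mul_le_mul_of_nonneg_right hδ2 hNpos.le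
      have h3 : (2 : ℝ) * ((|v * N - X * M| : ℤ) : ℝ) ≤ N := by
        rw [Int.cast_abs]
        linarith
      exact_mod_cast h3
    · rw [mem_bohr]
      intro γ hγ
      obtain ⟨g, hg⟩ : ∃ g : ℤ, g = γ.valMinAbs := ⟨_, rfl⟩
      have hγg : γ = ((g : ℤ) : ZMod M) := by rw [hg, ZMod.coe_valMinAbs]
      have hgM : |(g : ℝ)| ≤ M / 2 := by
        have h1 := ZMod.natAbs_valMinAbs_le γ
        rw [← hg] at h1
        have h2 : g.natAbs * 2 ≤ M := by omega
        have h3 : ((g.natAbs : ℕ) : ℝ) * 2 ≤ M := by exact_mod_cast h2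
        rw [Nat.cast_natAbs, Int.cast_abs] at h3
        linarith
      have h1 := hx ((g : ℤ) : ZMod N) (mem_insert_of_mem (mem_image.2 ⟨γ, hγ, by rw [hg]⟩))
      have h2 : ((g : ℤ) : ZMod N) * x = ((g * X : ℤ) : ZMod N) := by
        rw [hxX]; push_cast; ring
      rw [h2, ZMod.toAddCircle_intCast] at h1
      have h4 : γ * ((v : ℤ) : ZMod M) = ((g * v : ℤ) : ZMod M) := by
        rw [hγg]; push_cast; ring
      rw [h4, ZMod.toAddCircle_intCast]
      have h5 : (((g * v : ℤ) : ℝ) / M) = (((g * X : ℤ) : ℝ) / N) + g * δ / M := by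
        rw [hδ]; push_cast; field_simp; ring
      rw [h5, AddCircle.coe_add]
      have h6 : ‖((g * δ / M : ℝ) : UnitAddCircle)‖ ≤ |g * δ / M| := by
        rw [UnitAddCircle.norm_eq]
        have := round_le (g * δ / M) 0
        simpa using this
      have h7 : |g * δ / M| ≤ 1 / 2 * |δ| := by
        rw [abs_div, abs_mul, abs_of_pos hMpos, div_le_iff₀ hMpos]
        calc |(g : ℝ)| * |δ| ≤ (M / 2) * |δ| := mul_le_mul_of_nonneg_right hgM (abs_nonneg _)
          _ = 1 / 2 * |δ| * M := by ring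
      calc ‖((((g * X : ℤ) : ℝ) / N : ℝ) : UnitAddCircle) + ((g * δ / M : ℝ) : UnitAddCircle)‖
          ≤ ‖((((g * X : ℤ) : ℝ) / N : ℝ) : UnitAddCircle)‖ + ‖((g * δ / M : ℝ) : UnitAddCircle)‖ := norm_add_le _ _
        _ ≤ 2 / 3 * ε + 1 / 2 * (2 / 3 * ε) := by linarith
        _ = ε := by ring

end Pool.Agent.Q215.BT
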